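import Mathlib
import Pool.Agent.Helper60.HN.ExDual
import Pool.Agent.Helper45.N4.Nat

/-!
# Coefficients from a list of monomials; the Jacobian by dual numbers
-/

namespace Pool.Agent.Helper76.N4

open Pool.Agent.Helper64.HK Pool.Agent.Helper24.HK
open Pool.Agent.Helper16.N4
open Pool.Agent.Helper28.HN (I aff)
open Pool.Agent.Helper60.HN (dl dl_fst dl_snd dl_ext dl_add dl_mul dl_sub dl_eq_zero dl_cast dl_one
  dl_pow aeval_dl)
open MvPolynomial (X C pderiv aeval eval)

theorem dl_two : (2 : DualNumber ℚ) = dl 2 0 := by rw [← dl_cast, map_ofNat]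

theorem dl_int (n : ℤ) : (n : DualNumber ℚ) = dl (n : ℚ) 0 := by rw [← dl_cast, map_intCast]

theorem dl_zero : (0 : DualNumber ℚ) = dl 0 0 := by rw [← dl_cast, map_zero]

theorem dl_neg (a b : ℚ) : -dl a b = dl (-a) (-b) := dl_ext (by simp [dl_fst]) (by simp [dl_snd])

theorem dl_ofNat (n : ℕ) [n.AtLeastTwo] : (OfNat.ofNat n : DualNumber ℚ) = dl (OfNat.ofNat n) 0 := by
  rw [← dl_cast, map_ofNat]

section mon

variable {k m : ℕ} {a : Fin (k + 1) → Fin (m + 1)}

/-- A monomial: the coefficient, the coordinates in the first slots and in the second slots (the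
latter are used only for the factors `j` with `a j = i`). -/
structure Mo (k m : ℕ) where
  /-- the coefficient -/
  c : ℤ
  /-- the first slots -/
  p : Fin (k + 1) → I m
  /-- the second slots -/
  q : Fin (k + 1) → I m

variable {S : Type*} [CommRing S]

/-- The coefficients which belong to lists of monomials. -/
def cM (M : Fin (m + 1) → List (Mo k m)) : Ix a → S := fun e =>
  ((M e.1).map fun t =>
    if t.p = e.2.1 ∧ (fun j : {j // a j = e.1} => t.q j.1) = e.2.2 then (t.c : S) else 0).sum

theorem map_cM {S' : Type*} [CommRing S'] (f : S →+* S') (M : Fin (m + 1) → List (Mo k m)) :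
    (fun e => f ((cM M : Ix a → S) e)) = cM M := by
  funext e
  unfold cM
  rw [map_list_sum, List.map_map]
  congr 1
  refine List.map_congr_left fun t _ => ?_
  simp only [Function.comp_apply, apply_ite f, map_intCast, map_zero]

theorem prod_sub' (i : Fin (m + 1)) (f : Fin (k + 1) → S) :
    ∏ j : {j // a j = i}, f j.1 = ∏ j, if a j = i then f j else 1 := by
  rw [← Finset.prod_filter]
  exact (Finset.prod_subtype (Finset.univ.filter fun j => a j = i) (by simp) f).symm

theorem sum_cM (i : Fin (m + 1)) (l : List (Mo k m)) (A : (Fin (k + 1) → I m) → S)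
    (B : ({j // a j = i} → I m) → S) :
    ∑ p : Fin (k + 1) → I m, ∑ q : {j // a j = i} → I m,
      ((l.map fun t => if t.p = p ∧ (fun j : {j // a j = i} => t.q j.1) = q then (t.c : S) else 0).sum *
        A p * B q) = (l.map fun t => (t.c : S) * A t.p * B fun j => t.q j.1).sum := by
  induction l with
  | nil => simp
  | cons t l ih =>
    simp only [List.map_cons, List.sum_cons, add_mul, Finset.sum_add_distrib, ih]
    congr 1
    rw [Finset.sum_eq_single t.p, Finset.sum_eq_single fun j : {j // a j = i} => t.q j.1]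
    · simp
    · intro q _ hq
      rw [if_neg fun h => hq h.2.symm, zero_mul, zero_mul]
    · simp
    · intro p _ hp
      refine Finset.sum_eq_zero fun q _ => ?_
      rw [if_neg fun h => hp h.1.symm, zero_mul, zero_mul]
    · simp

theorem Mf_cM (M : Fin (m + 1) → List (Mo k m)) (i : Fin (m + 1)) (U V : Fin (k + 1) → I m → S) :
    Mf (cM M : Ix a → S) i U V = ((M i).map fun t => (t.c : S) * (∏ j, U j (t.p j)) *
      ∏ j, if a j = i then V j (t.q j) else 1).sum := by
  refine (sum_cM i (M i) (fun p => ∏ j, U j (p j)) fun q => ∏ j : {j // a j = i}, V j.1 (q j)).trans ?_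
  congr 1
  refine List.map_congr_left fun t _ => ?_
  rw [prod_sub' i fun j => V j (t.q j)]

/-- Two factors. -/
theorem Mf_two {a : Fin (1 + 1) → Fin (m + 1)} (M : Fin (m + 1) → List (Mo 1 m)) (i : Fin (m + 1))
    (U V : Fin (1 + 1) → I m → S) :
    Mf (cM M : Ix a → S) i U V = ((M i).map fun t => (t.c : S) * (U 0 (t.p 0) * U 1 (t.p 1)) *
      ((if a 0 = i then V 0 (t.q 0) else 1) * if a 1 = i then V 1 (t.q 1) else 1)).sum := by
  rw [Mf_cM]
  congr 1
  refine List.map_congr_left fun t _ => ?_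
  rw [Fin.prod_univ_two, Fin.prod_univ_two]

end mon

/-- The Jacobian is invertible if there are no first order solutions. -/
theorem jac {k m : ℕ} {a : Fin (k + 1) → Fin (m + 1)} (s : Sel4 k m) (c0 : Ix a → ℚ)
    (x0 : Un4 k m → ℚ) (h1 : ∀ i, Eqn4 c0 s x0 i = 0)
    (h : ∀ v : Un4 k m → ℚ, (∀ i, Eqn4 (fun e => algebraMap ℚ (DualNumber ℚ) (c0 e)) s
      (fun j => dl (x0 j) (v j)) i = 0) → v = 0) :
    (Matrix.of fun i j => eval x0 (pderiv j (Gs4 c0 s i))).det ≠ 0 := by
  intro h0
  obtain ⟨v, hv, hv0⟩ := Matrix.exists_mulVec_eq_zero_iff.2 h0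
  refine hv (h v fun i => ?_)
  have h2 := aeval_dl x0 v (Gs4 c0 s i)
  have h3 : aeval (fun t => dl (x0 t) (v t)) (Gs4 c0 s i) =
      Eqn4 (fun e => algebraMap ℚ (DualNumber ℚ) (c0 e)) s (fun j => dl (x0 j) (v j)) i := by
    refine (Pool.Agent.Helper45.N4.map_Eqn4 (aeval (R := ℚ) (fun t => dl (x0 t) (v t)) :
      MvPolynomial (Un4 k m) ℚ →ₐ[ℚ] DualNumber ℚ).toRingHom (fun e => C (c0 e)) s X i).trans ?_
    congr 1
    · funext e
      exact MvPolynomial.aeval_C _ _
    · funext j
      exact MvPolynomial.aeval_X _ _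
  have h4 : eval x0 (Gs4 c0 s i) = 0 := by
    rw [← h1 i]
    refine (Pool.Agent.Helper45.N4.map_Eqn4 (eval x0) (fun e => C (c0 e)) s X i).trans ?_
    congr 1
    · funext e
      exact MvPolynomial.eval_C _
    · funext j
      exact MvPolynomial.eval_X _
  rw [← h3, h2, h4]
  refine dl_eq_zero.2 ⟨rfl, ?_⟩
  refine Eq.trans ?_ (congrFun hv0 i)
  rw [Matrix.mulVec, dotProduct]
  exact Finset.sum_congr rfl fun j _ => mul_comm _ _

end Pool.Agent.Helper76.N4
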