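import Mathlib
import Pool.Agent.Helper76.N4.Mon

/-!
# The example for type 1: closed formulas
-/

namespace Pool.Agent.Helper76.N4.E1

open Pool.Agent.Helper64.HK Pool.Agent.Helper24.HK
open Pool.Agent.Helper16.N4
open Pool.Agent.Helper28.HN (I aff)

/-- The type. -/
abbrev a1 : Fin (1 + 1) → Fin (3 + 1) := ![0, 0]

/-- The monomial `x i * x j * y k * y l`. -/
def mq (c : ℤ) (i j k l : Fin 5) : Mo 1 3 := ⟨c, ![k, i], ![l, j]⟩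

/-- The monomial `y k * x i`. -/
def ml (c : ℤ) (k i : Fin 5) : Mo 1 3 := ⟨c, ![k, i], ![0, 0]⟩

/-- The forms. -/
def M1 : Fin (3 + 1) → List (Mo 1 3) := ![
  [mq 4 0 1 0 0, mq (-3) 0 1 2 2, mq (-4) 0 1 0 3, mq (-2) 0 1 0 4, mq 2 0 1 2 4, mq 2 0 1 1 3,
    mq (-2) 0 1 3 4, mq 1 0 1 4 4, mq 1 1 1 2 2, mq 1 1 1 4 4, mq 6 0 3 1 1, mq (-5) 0 4 0 0,
    mq (-6) 0 4 0 1, mq 1 0 4 1 1, mq 1 2 2 0 0],
  [ml 1 2 0, ml (-1) 0 1, ml 1 1 2],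
  [ml 1 3 0, ml (-1) 1 1, ml 1 0 3],
  [ml 1 4 0, ml (-1) 3 1, ml 1 0 4, ml (-1) 1 3]]

variable {S : Type*} [CommRing S]

/-- The first form. -/
def Q (x x' y y' : I 3 → S) : S :=
  x 0 * x' 1 * (4 * y 0 * y' 0 - 3 * y 2 * y' 2 - 4 * y 0 * y' 3 - 2 * y 0 * y' 4 + 2 * y 2 * y' 4 +
    2 * y 1 * y' 3 - 2 * y 3 * y' 4 + y 4 * y' 4) + x 1 * x' 1 * (y 2 * y' 2 + y 4 * y' 4) +
  6 * x 0 * x' 3 * y 1 * y' 1 + x 0 * x' 4 * (-5 * y 0 * y' 0 - 6 * y 0 * y' 1 + y 1 * y' 1) +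
  x 2 * x' 2 * y 0 * y' 0

/-- The linear forms. -/
def L1 (x y : I 3 → S) : S := x 0 * y 2 - x 1 * y 0 + x 2 * y 1

/-- The linear forms. -/
def L2 (x y : I 3 → S) : S := x 0 * y 3 - x 1 * y 1 + x 3 * y 0

/-- The linear forms. -/
def L3 (x y : I 3 → S) : S := x 0 * y 4 - x 1 * y 3 + x 4 * y 0 - x 3 * y 1

/-- The coefficients. -/
def c1 : Ix a1 → S := cM M1

theorem M0 (U V : Fin (1 + 1) → I 3 → S) : Mf (c1 : Ix a1 → S) 0 U V = Q (U 1) (V 1) (U 0) (V 0) := by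
  rw [c1, Mf_two]
  simp only [M1, mq, Matrix.cons_val_zero, Matrix.cons_val_one, List.map_cons, List.map_nil,
    List.sum_cons, List.sum_nil, if_true, Q]
  push_cast
  ring

theorem M01 (U V : Fin (1 + 1) → I 3 → S) : Mf (c1 : Ix a1 → S) 1 U V = L1 (U 1) (U 0) := by
  rw [c1, Mf_two]
  simp [M1, ml, L1]
  ring

theorem M02 (U V : Fin (1 + 1) → I 3 → S) : Mf (c1 : Ix a1 → S) 2 U V = L2 (U 1) (U 0) := by
  rw [c1, Mf_two]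
  simp [M1, ml, L2]
  ring

theorem M03 (U V : Fin (1 + 1) → I 3 → S) : Mf (c1 : Ix a1 → S) 3 U V = L3 (U 1) (U 0) := by
  rw [c1, Mf_two]
  simp [M1, ml, L3]
  ring

end Pool.Agent.Helper76.N4.E1
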