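import Mathlib
import Pool.Agent.Helper76.N4.E1Defs

/-!
# The example for type 1: closed formulas for the local quantities
-/

namespace Pool.Agent.Helper76.N4.E1

open Pool.Agent.Helper64.HK Pool.Agent.Helper24.HK
open Pool.Agent.Helper16.N4
open Pool.Agent.Helper28.HN (I aff)

variable {S : Type*} [CommRing S]

/-- The form `Q` as a bilinear form in `x`. -/
def sQ (x x' y : I 3 → S) : S := Q x x' y y + Q x' x y y

/-- The form `Q` as a bilinear form in `y`. -/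
def tQ (x y y' : I 3 → S) : S := Q x x y y' + Q x x y' y

/-- The point of the chart. -/
def xv (x1 x2 x3 x4 : S) : I 3 → S := ![1, x1, x2, x3, x4]

/-- `Y0`. -/
def y0v (x1 x3 x4 : S) : I 3 → S := ![1, 0, x1, -x3, -x1 * x3 - x4]

/-- `Y1`. -/
def y1v (x1 x2 x3 : S) : I 3 → S := ![0, 1, -x2, x1, x1 * x1 + x3]

/-- `yh`. -/
def yv (x1 x2 x3 x4 z : S) : I 3 → S :=
  ![1, z, x1 - z * x2, z * x1 - x3, z * (x1 * x1 + x3) - x1 * x3 - x4]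

/-- `xh`. -/
def xiv (y3 z : S) : I 3 → S := ![0, -z, -1, -z * z, -(z * z * z + z * y3)]

variable (X : Fin (1 + 1) → I 3 → S) {x1 x2 x3 x4 : S}

theorem rf0 (r : Fin 3) (v : I 3 → S) : rf (c1 : Ix a1 → S) 0 X r v =
    ![L1 (X 1) v, L2 (X 1) v, L3 (X 1) v] r := by
  fin_cases r
  · exact M01 _ _
  · exact M02 _ _
  · exact M03 _ _

theorem rf1 (r : Fin 3) (v : I 3 → S) : rf (c1 : Ix a1 → S) 1 X r v =
    ![L1 v (X 0), L2 v (X 0), L3 v (X 0)] r := by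
  fin_cases r
  · exact M01 _ _
  · exact M02 _ _
  · exact M03 _ _

theorem Mx_eq (h : X 1 = xv x1 x2 x3 x4) :
    Mx (c1 : Ix a1 → S) X = !![1, 0, 0; 0, 1, 0; 0, -x1, 1] := by
  ext r b
  unfold Mx
  rw [rf0, h]
  fin_cases r <;> fin_cases b <;> simp [L1, L2, L3, xv, Fin.ext_iff]

theorem det_eq (h : X 1 = xv x1 x2 x3 x4) : (Mx (c1 : Ix a1 → S) X).det = 1 := by
  rw [Mx_eq X h, Matrix.det_fin_three]
  simp

theorem adj_eq (h : X 1 = xv x1 x2 x3 x4) :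
    (Mx (c1 : Ix a1 → S) X).adjugate = !![1, 0, 0; 0, 1, 0; 0, x1, 1] := by
  rw [Mx_eq X h, Matrix.adjugate_fin_three_of]
  ext r b
  fin_cases r <;> fin_cases b <;> simp

theorem Y0_eq (h : X 1 = xv x1 x2 x3 x4) : Y0 (c1 : Ix a1 → S) X = y0v x1 x3 x4 := by
  unfold Y0
  rw [det_eq X h, adj_eq X h]
  funext i
  fin_cases i
  · rfl
  · rfl
  · show -(Matrix.mulVec _ _ 0) = _
    simp [Matrix.mulVec, dotProduct, Fin.sum_univ_three, rf0, h, L1, L2, L3, xv, y0v, Fin.ext_iff]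
  · show -(Matrix.mulVec _ _ 1) = _
    simp [Matrix.mulVec, dotProduct, Fin.sum_univ_three, rf0, h, L1, L2, L3, xv, y0v, Fin.ext_iff]
  · show -(Matrix.mulVec _ _ 2) = _
    simp [Matrix.mulVec, dotProduct, Fin.sum_univ_three, rf0, h, L1, L2, L3, xv, y0v, Fin.ext_iff]
    ring

theorem Y1_eq (h : X 1 = xv x1 x2 x3 x4) : Y1 (c1 : Ix a1 → S) X = y1v x1 x2 x3 := by
  unfold Y1
  rw [det_eq X h, adj_eq X h]
  funext i
  fin_cases i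
  · rfl
  · rfl
  · show -(Matrix.mulVec _ _ 0) = _
    simp [Matrix.mulVec, dotProduct, Fin.sum_univ_three, rf0, h, L1, L2, L3, xv, y1v, Fin.ext_iff]
  · show -(Matrix.mulVec _ _ 1) = _
    simp [Matrix.mulVec, dotProduct, Fin.sum_univ_three, rf0, h, L1, L2, L3, xv, y1v, Fin.ext_iff]
  · show -(Matrix.mulVec _ _ 2) = _
    simp [Matrix.mulVec, dotProduct, Fin.sum_univ_three, rf0, h, L1, L2, L3, xv, y1v, Fin.ext_iff]
    ring

theorem yh_eq (h : X 1 = xv x1 x2 x3 x4) (z : S) :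
    yh (c1 : Ix a1 → S) X z = yv x1 x2 x3 x4 z := by
  unfold yh
  rw [Y0_eq X h, Y1_eq X h]
  funext i
  fin_cases i <;> simp [y0v, y1v, yv] <;> ring

theorem Nx_eq {z y2 y3 y4 : S} (h : X 0 = ![1, z, y2, y3, y4]) :
    Nx (c1 : Ix a1 → S) 1 X = !![-1, z, 0; -z, 0, 1; -y3, 0, -z] := by
  ext r b
  unfold Nx
  rw [rf1, h]
  fin_cases r <;> fin_cases b <;> simp [L1, L2, L3, Fin.ext_iff]

theorem detN_eq {z y2 y3 y4 : S} (h : X 0 = ![1, z, y2, y3, y4]) :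
    (Nx (c1 : Ix a1 → S) 1 X).det = -(z * z * z + z * y3) := by
  rw [Nx_eq X h, Matrix.det_fin_three]
  simp
  ring

theorem vh_eq {z y2 y3 y4 : S} (h : X 0 = ![1, z, y2, y3, y4]) :
    vh (c1 : Ix a1 → S) 1 X = ![-z, -1, -z * z, -(z * z * z + z * y3)] := by
  unfold vh
  rw [detN_eq X h, Nx_eq X h, Matrix.adjugate_fin_three_of]
  funext i
  fin_cases i
  · show -(Matrix.mulVec _ _ 0) = _
    simp [Matrix.mulVec, dotProduct, Fin.sum_univ_three, rf1, h, L1, L2, L3, Fin.ext_iff]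
  · show -(Matrix.mulVec _ _ 1) = _
    simp [Matrix.mulVec, dotProduct, Fin.sum_univ_three, rf1, h, L1, L2, L3, Fin.ext_iff]
  · show -(Matrix.mulVec _ _ 2) = _
    simp [Matrix.mulVec, dotProduct, Fin.sum_univ_three, rf1, h, L1, L2, L3, Fin.ext_iff]
  · rfl

theorem xh_eq {z y2 y3 y4 : S} (h : X 0 = ![1, z, y2, y3, y4]) :
    xh (c1 : Ix a1 → S) 1 X = xiv y3 z := by
  unfold xh
  rw [vh_eq X h]
  rfl

theorem P0_eq (v w : I 3 → S) : Pf (c1 : Ix a1 → S) 0 X v w = tQ (X 1) v w := by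
  unfold Pf
  exact congrArg₂ (· + ·) (M0 _ _) (M0 _ _)

theorem P1_eq (v w : I 3 → S) : Pf (c1 : Ix a1 → S) 1 X v w = sQ v w (X 0) := by
  unfold Pf
  exact congrArg₂ (· + ·) (M0 _ _) (M0 _ _)

theorem Ah_eq (h : X 1 = xv x1 x2 x3 x4) : Ah (c1 : Ix a1 → S) X =
    tQ (xv x1 x2 x3 x4) (y1v x1 x2 x3) (y1v x1 x2 x3) := by
  unfold Ah
  rw [P0_eq, Y1_eq X h, h]

theorem Bh_eq (h : X 1 = xv x1 x2 x3 x4) : Bh (c1 : Ix a1 → S) X =
    tQ (xv x1 x2 x3 x4) (y0v x1 x3 x4) (y1v x1 x2 x3) := by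
  unfold Bh
  rw [P0_eq, Y0_eq X h, Y1_eq X h, h]

theorem Ch_eq (h : X 1 = xv x1 x2 x3 x4) : Ch (c1 : Ix a1 → S) X =
    tQ (xv x1 x2 x3 x4) (y0v x1 x3 x4) (y0v x1 x3 x4) := by
  unfold Ch
  rw [P0_eq, Y0_eq X h, h]

theorem Fh_eq (h : X 1 = xv x1 x2 x3 x4) (z : S) : Fh (c1 : Ix a1 → S) X z =
    tQ (xv x1 x2 x3 x4) (yv x1 x2 x3 x4 z) (yv x1 x2 x3 x4 z) := by
  unfold Fh
  rw [P0_eq, yh_eq X h, h]

theorem Xz0 (h : X 1 = xv x1 x2 x3 x4) (z : S) :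
    Xz (c1 : Ix a1 → S) X z 0 = yv x1 x2 x3 x4 z := by
  unfold Xz
  rw [Function.update_self, yh_eq X h]

theorem Xz1 (z : S) : Xz (c1 : Ix a1 → S) X z 1 = X 1 := by
  unfold Xz
  rw [Function.update_of_ne (by decide)]

theorem xhz (h : X 1 = xv x1 x2 x3 x4) (z : S) :
    xh (c1 : Ix a1 → S) 1 (Xz c1 X z) = xiv (z * x1 - x3) z :=
  xh_eq _ (Xz0 X h z)

theorem vhz (h : X 1 = xv x1 x2 x3 x4) (z : S) : vh (c1 : Ix a1 → S) 1 (Xz c1 X z) =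
    ![-z, -1, -z * z, -(z * z * z + z * (z * x1 - x3))] :=
  vh_eq _ (Xz0 X h z)

theorem psh_eq (h : X 1 = xv x1 x2 x3 x4) (z : S) : psh (c1 : Ix a1 → S) 1 X z =
    sQ (xv x1 x2 x3 x4) (xiv (z * x1 - x3) z) (yv x1 x2 x3 x4 z) := by
  unfold psh
  rw [P1_eq, xhz X h, Xz0 X h, h]

theorem kah_eq (h : X 1 = xv x1 x2 x3 x4) (z : S) : kah (c1 : Ix a1 → S) 1 X z =
    sQ (xiv (z * x1 - x3) z) (xiv (z * x1 - x3) z) (yv x1 x2 x3 x4 z) := by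
  unfold kah
  rw [P1_eq, xhz X h, Xz0 X h]

theorem De0 (ξ : I 3 → S) : De (c1 : Ix a1 → S) 0 1 X ξ = sQ ξ (X 1) (X 0) := by
  unfold De
  rw [if_pos (show a1 1 = 0 by decide)]
  exact congrArg₂ (· + ·) (M0 _ _) (M0 _ _)

theorem De1 (ξ : I 3 → S) : De (c1 : Ix a1 → S) 1 1 X ξ = L1 ξ (X 0) := by
  unfold De
  rw [if_neg (by decide), add_zero]
  exact M01 _ _

theorem De2 (ξ : I 3 → S) : De (c1 : Ix a1 → S) 2 1 X ξ = L2 ξ (X 0) := by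
  unfold De
  rw [if_neg (by decide), add_zero]
  exact M02 _ _

theorem De3 (ξ : I 3 → S) : De (c1 : Ix a1 → S) 3 1 X ξ = L3 ξ (X 0) := by
  unfold De
  rw [if_neg (by decide), add_zero]
  exact M03 _ _

/-- The vertical part. -/
def vpv (x1 e1 e2 e3 : S) : I 3 → S := ![0, 0, -e1, -e2, -(x1 * e2 + e3)]

theorem vp_eq (h : X 1 = xv x1 x2 x3 x4) (e : Fin 3 → S) : vp (c1 : Ix a1 → S) X e =
    vpv x1 (e 0) (e 1) (e 2) := by
  unfold vp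
  rw [adj_eq X h]
  funext i
  fin_cases i
  · rfl
  · rfl
  · show -(Matrix.mulVec _ _ 0) = _
    simp [Matrix.mulVec, dotProduct, Fin.sum_univ_three, vpv]
  · show -(Matrix.mulVec _ _ 1) = _
    simp [Matrix.mulVec, dotProduct, Fin.sum_univ_three, vpv]
  · show -(Matrix.mulVec _ _ 2) = _
    simp [Matrix.mulVec, dotProduct, Fin.sum_univ_three, vpv]

/-- The derivative of `Fh`. -/
def qv (x1 x2 x3 x4 : S) (ξ : I 3 → S) (z : S) : S :=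
  2 * (sQ ξ (xv x1 x2 x3 x4) (yv x1 x2 x3 x4 z) + tQ (xv x1 x2 x3 x4) (yv x1 x2 x3 x4 z)
    (vpv x1 (L1 ξ (yv x1 x2 x3 x4 z)) (L2 ξ (yv x1 x2 x3 x4 z)) (L3 ξ (yv x1 x2 x3 x4 z))))

theorem qh_eq (h : X 1 = xv x1 x2 x3 x4) (ξ : I 3 → S) (z : S) :
    qh (c1 : Ix a1 → S) 1 X ξ z = qv x1 x2 x3 x4 ξ z := by
  unfold qh
  rw [det_eq X h, one_mul, P0_eq, vp_eq X h, yh_eq X h, h]
  have h0 : De (c1 : Ix a1 → S) (a1 0) 1 (Xz c1 X z) ξ = sQ ξ (xv x1 x2 x3 x4) (yv x1 x2 x3 x4 z) := by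
    refine (De0 _ _).trans ?_
    rw [Xz0 X h, Xz1, h]
  have h1 : De (c1 : Ix a1 → S) ((a1 0).succAbove 0) 1 (Xz c1 X z) ξ = L1 ξ (yv x1 x2 x3 x4 z) := by
    refine (De1 _ _).trans ?_
    rw [Xz0 X h]
  have h2 : De (c1 : Ix a1 → S) ((a1 0).succAbove 1) 1 (Xz c1 X z) ξ = L2 ξ (yv x1 x2 x3 x4 z) := by
    refine (De2 _ _).trans ?_
    rw [Xz0 X h]
  have h3 : De (c1 : Ix a1 → S) ((a1 0).succAbove 2) 1 (Xz c1 X z) ξ = L3 ξ (yv x1 x2 x3 x4 z) := by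
    refine (De3 _ _).trans ?_
    rw [Xz0 X h]
  rw [h0, h1, h2, h3, qv]

theorem th_eq (h : X 1 = xv x1 x2 x3 x4) (z : S) : th (c1 : Ix a1 → S) 1 X z = 1 := by
  unfold th
  rw [det_eq X h, P0_eq, vp_eq X h, yh_eq X h, h,
    if_pos (show a1 1 = a1 0 by decide), if_neg (by decide), if_neg (by decide), if_neg (by decide)]
  simp [tQ, Q, vpv]

end Pool.Agent.Helper76.N4.E1
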