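import Mathlib
import Pool.Agent.Helper76.N4.E1Ev

/-!
# The example for type 1: the numbers and the equations
-/

namespace Pool.Agent.Helper76.N4.E1

open Pool.Agent.Helper64.HK Pool.Agent.Helper24.HK
open Pool.Agent.Helper16.N4
open Pool.Agent.Helper28.HN (I aff)

/-- The choices. -/
def s1 : Sel4 1 3 where
  S := fun i => (0, i)
  hS := fun i j h => (Prod.mk.inj h).2
  f := 0
  y := 0
  j := (0, 3)
  m' := (0, 0)
  l := (0, 1)
  hjm := by decide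
  hml := by decide
  hlj := by decide

/-- The roots. -/
def z1 : Fin 4 → ℚ := ![-2, 2, 1, -1]

/-- The branch points. -/
def t1 : Fin 4 → ℚ := ![-2, 1, -1, 2]

/-- The double roots. -/
def w1 : Fin 4 → ℚ := ![-2, 1, -1, 0]

/-- The example. -/
def x1 : Un4 1 3 → ℚ
  | .u _ => 0
  | .z q => z1 q.2
  | .d _ => 0
  | .t r => t1 r
  | .w r => w1 r

section

variable {S : Type*} [CommRing S] (x : Un4 1 3 → S)

theorem pt_eq : pt (rd s1 x) 1 = xv (x (.u (0, 0))) (x (.u (0, 1))) (x (.u (0, 2))) (x (.u (0, 3))) := by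
  funext i
  fin_cases i <;> rfl

theorem pl_eq (t : S) : pl s1 x t 1 = xv (x (.u (0, 0)) + t) (x (.u (0, 1)) + t * x (.d 0))
    (x (.u (0, 2)) + t * x (.d 1)) (x (.u (0, 3)) + t * x (.d 2)) := by
  funext i
  fin_cases i
  · rfl
  · show x (.u (0, 0)) + (if (0 : Fin 1) = 0 then t * 1 else 0) = x (.u (0, 0)) + t
    rw [if_pos rfl, mul_one]
  · rfl
  · rfl
  · rfl

theorem dr_eq : dr x = ![0, 1, x (.d 0), x (.d 1), x (.d 2)] := by
  funext i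
  fin_cases i <;> rfl

theorem eu0 : Eqn4 (c1 : Ix a1 → S) s1 x (.u (0, 0)) = Ah c1 (pt (rd s1 x)) := rfl

theorem eu1 : Eqn4 (c1 : Ix a1 → S) s1 x (.u (0, 1)) = Fh c1 (pt (rd s1 x)) 0 := by
  rw [show (0 : S) = ((s1.y : ℤ) : S) from Int.cast_zero.symm]
  rfl

theorem eu2 : Eqn4 (c1 : Ix a1 → S) s1 x (.u (0, 2)) = Fh c1 (pt (rd s1 x)) (x (.z (0, 3))) := rfl

theorem eu3 : Eqn4 (c1 : Ix a1 → S) s1 x (.u (0, 3)) = qh c1 1 (pt (rd s1 x))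
    (xh c1 1 (Xz c1 (pt (rd s1 x)) (x (.z (0, 0))))) (x (.z (0, 3))) := rfl

theorem ez (i : Fin 4) : Eqn4 (c1 : Ix a1 → S) s1 x (.z (0, i)) =
    psh c1 1 (pt (rd s1 x)) (x (.z (0, i))) := rfl

theorem ed (i : Fin 3) : Eqn4 (c1 : Ix a1 → S) s1 x (.d i) =
    qh c1 1 (pl s1 x (x (.t i.succ))) (dr x) (x (.w i.succ)) := rfl

theorem et (r : Fin 4) : Eqn4 (c1 : Ix a1 → S) s1 x (.t r) =
    Ah c1 (pl s1 x (x (.t r))) * x (.w r) + Bh c1 (pl s1 x (x (.t r))) := rfl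

theorem ew (r : Fin 4) : Eqn4 (c1 : Ix a1 → S) s1 x (.w r) =
    Bh c1 (pl s1 x (x (.t r))) * x (.w r) + Ch c1 (pl s1 x (x (.t r))) := rfl

end

theorem ex_eqn (i : Un4 1 3) : Eqn4 (c1 : Ix a1 → ℚ) s1 x1 i = 0 := by
  rcases i with ⟨j, i⟩ | ⟨j, i⟩ | i | r | r
  · obtain rfl : j = 0 := Subsingleton.elim _ _
    fin_cases i
    · refine (eu0 _).trans ?_
      rw [Ah_eq _ (pt_eq x1)]
      simp [tQ, Q, xv, y1v, x1]
    · refine (eu1 _).trans ?_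
      rw [Fh_eq _ (pt_eq x1)]
      simp [tQ, Q, xv, yv, x1]
    · refine (eu2 _).trans ?_
      rw [Fh_eq _ (pt_eq x1)]
      simp [tQ, Q, xv, yv, x1]
    · refine (eu3 _).trans ?_
      rw [xhz _ (pt_eq x1), qh_eq _ (pt_eq x1)]
      simp [qv, sQ, tQ, Q, xv, yv, x1, vpv, xiv, L1, L2, L3, z1]
      norm_num
  · obtain rfl : j = 0 := Subsingleton.elim _ _
    rw [ez, psh_eq _ (pt_eq x1)]
    fin_cases i <;> simp [sQ, Q, xv, yv, x1, xiv, z1] <;> norm_num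
  · rw [ed, qh_eq _ (pl_eq x1 _), dr_eq]
    fin_cases i <;> simp [qv, sQ, tQ, Q, xv, yv, x1, vpv, L1, L2, L3, t1, w1] <;> norm_num
  · rw [et, Ah_eq _ (pl_eq x1 _), Bh_eq _ (pl_eq x1 _)]
    fin_cases r <;> simp [tQ, Q, xv, y0v, y1v, x1, t1, w1] <;> norm_num
  · rw [ew, Ch_eq _ (pl_eq x1 _), Bh_eq _ (pl_eq x1 _)]
    fin_cases r <;> simp [tQ, Q, xv, y0v, y1v, x1, t1, w1] <;> norm_num

end Pool.Agent.Helper76.N4.E1
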