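import Mathlib
import Pool.Agent.Helper76.N4.E1Ex

/-!
# The example for type 1: the inequalities
-/

namespace Pool.Agent.Helper76.N4.E1

open Pool.Agent.Helper64.HK Pool.Agent.Helper24.HK
open Pool.Agent.Helper16.N4
open Pool.Agent.Helper28.HN (I aff)

theorem rd_none : rd s1 x1 (.inr none) = 0 := by
  show ((0 : ℤ) : ℚ) = 0
  rw [Int.cast_zero]

theorem rd_some (i : Fin 4) : rd s1 x1 (.inr (some (0, i))) = z1 i := rfl

theorem dz (b b' : Lt 1 3) (h : b ≠ b') : rd s1 x1 (.inr b) - rd s1 x1 (.inr b') ≠ 0 := by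
  have h1 : ∀ b : Lt 1 3, b = none ∨ ∃ i : Fin 4, b = some (0, i) := by
    rintro (_ | ⟨j, i⟩)
    · exact Or.inl rfl
    · exact Or.inr ⟨i, by rw [Subsingleton.elim j 0]⟩
  rcases h1 b with rfl | ⟨i, rfl⟩ <;> rcases h1 b' with rfl | ⟨i', rfl⟩
  · exact absurd rfl h
  · rw [rd_none, rd_some]
    fin_cases i' <;> norm_num [z1]
  · rw [rd_none, rd_some]
    fin_cases i <;> norm_num [z1]
  · rw [rd_some, rd_some]
    fin_cases i <;> fin_cases i' <;> first | exact absurd rfl h | norm_num [z1]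

theorem pt_x1 : pt (rd s1 x1) 1 = xv 0 0 0 0 := pt_eq x1

theorem x1z (i : Fin 4) : x1 (.z (0, i)) = z1 i := rfl

theorem pq (i : Fin 4) (b : Lt 1 3) (h : ¬(b = some (0, i) ∨ ((0, i) = s1.m' ∧ b = some s1.j))) :
    qh (c1 : Ix a1 → ℚ) 1 (pt (rd s1 x1)) (xq c1 s1 x1 (0, i)) (rd s1 x1 (.inr b)) ≠ 0 := by
  have h0 : xq (c1 : Ix a1 → ℚ) s1 x1 (0, i) = xh c1 1 (Xz c1 (pt (rd s1 x1)) (x1 (.z (0, i)))) := rfl
  have h1 : ∀ b : Lt 1 3, b = none ∨ ∃ i : Fin 4, b = some (0, i) := by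
    rintro (_ | ⟨j, i⟩)
    · exact Or.inl rfl
    · exact Or.inr ⟨i, by rw [Subsingleton.elim j 0]⟩
  rw [h0, xhz _ pt_x1, qh_eq _ pt_x1, x1z]
  rcases h1 b with rfl | ⟨i', rfl⟩
  · rw [rd_none]
    fin_cases i <;> simp [qv, sQ, tQ, Q, xv, yv, vpv, xiv, L1, L2, L3, z1] <;> norm_num
  · rw [rd_some]
    fin_cases i <;> fin_cases i' <;> first
      | exact absurd (Or.inl rfl) h
      | exact absurd (Or.inr ⟨rfl, rfl⟩) h
      | (simp [qv, sQ, tQ, Q, xv, yv, vpv, xiv, L1, L2, L3, z1]; norm_num)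

theorem psd (i : Fin 4) : (psP (c1 : Ix a1 → ℚ) 1 (pt (rd s1 x1))).derivative.eval (z1 i) ≠ 0 := by
  have h1 : psP (c1 : Ix a1 → ℚ) 1 (pt (rd s1 x1)) =
      psh (c1 : Ix a1 → Polynomial ℚ) 1 (fun i l => Polynomial.C (pt (rd s1 x1) i l))
        Polynomial.X := by
    unfold psP c1
    rw [map_cM (a := a1) (Polynomial.C : ℚ →+* Polynomial ℚ) M1]
  have h2 : (fun i l => Polynomial.C (pt (rd s1 x1) i l)) 1 = xv (0 : Polynomial ℚ) 0 0 0 := by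
    funext l
    show Polynomial.C (pt (rd s1 x1) 1 l) = _
    rw [pt_x1]
    fin_cases l <;> simp [xv]
  rw [h1, psh_eq _ h2]
  have h3 : sQ (xv (0 : Polynomial ℚ) 0 0 0) (xiv (Polynomial.X * 0 - 0) Polynomial.X)
      (yv 0 0 0 0 Polynomial.X) =
      -Polynomial.X ^ 5 + Polynomial.C 5 * Polynomial.X ^ 3 - Polynomial.C 4 * Polynomial.X := by
    have h5 : (Polynomial.C 5 : Polynomial ℚ) = 5 := rfl
    have h4 : (Polynomial.C 4 : Polynomial ℚ) = 4 := rfl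
    rw [h5, h4]
    simp [sQ, Q, xv, yv, xiv]
    ring
  rw [h3]
  fin_cases i <;> simp [z1] <;> norm_num

theorem ex_pp : Pp4 (c1 : Ix a1 → ℚ) s1 x1 ≠ 0 := by
  have hs : ∀ q : Fin 1 × Fin (3 + 1), ∃ i : Fin 4, q = (0, i) := fun q =>
    ⟨q.2, Prod.ext (Subsingleton.elim _ _) rfl⟩
  unfold Pp4 Pa4 Pb4
  refine mul_ne_zero (mul_ne_zero (mul_ne_zero (mul_ne_zero (mul_ne_zero (mul_ne_zero (mul_ne_zero
    (mul_ne_zero (mul_ne_zero ?_ ?_) ?_) ?_) ?_) ?_) ?_) ?_) ?_) (mul_ne_zero (mul_ne_zero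
    (mul_ne_zero (mul_ne_zero ?_ ?_) ?_) ?_) ?_)
  · rw [det_eq _ pt_x1]
    norm_num
  · refine Finset.prod_ne_zero_iff.2 fun b _ => Finset.prod_ne_zero_iff.2 fun b' _ => ?_
    split_ifs with h
    · exact one_ne_zero
    · exact dz b b' h
  · refine Finset.prod_ne_zero_iff.2 fun q _ => ?_
    obtain ⟨i, rfl⟩ := hs q
    refine ne_of_eq_of_ne (detN_eq _ (Xz0 _ pt_x1 _)) ?_
    rw [x1z]
    fin_cases i <;> simp [z1]
  · refine Finset.prod_ne_zero_iff.2 fun q _ => ?_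
    obtain ⟨i, rfl⟩ := hs q
    refine ne_of_eq_of_ne (kah_eq _ pt_x1 _) ?_
    rw [x1z]
    fin_cases i <;> simp [sQ, Q, yv, xiv, z1]
  · refine Finset.prod_ne_zero_iff.2 fun q _ => ?_
    obtain ⟨i, rfl⟩ := hs q
    exact ne_of_eq_of_ne (th_eq _ pt_x1 _) one_ne_zero
  · refine Finset.prod_ne_zero_iff.2 fun q _ => ?_
    obtain ⟨i, rfl⟩ := hs q
    exact psd i
  · refine Finset.prod_ne_zero_iff.2 fun q _ => Finset.prod_ne_zero_iff.2 fun b _ => ?_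
    obtain ⟨i, rfl⟩ := hs q
    split_ifs with h
    · exact one_ne_zero
    · exact pq i b h
  · refine Finset.prod_ne_zero_iff.2 fun l _ => ?_
    obtain rfl : l = 0 := Subsingleton.elim _ _
    have h1 : Vm (c1 : Ix a1 → ℚ) (rd s1 x1) 0 = !![2, -1, -4, 8; -2, -1, -4, -8; -1, -1, -1, -1;
        1, -1, -1, 1] := by
      ext b i
      show vh (c1 : Ix a1 → ℚ) 1 (Xz c1 (pt (rd s1 x1)) (z1 b)) i = _
      rw [vhz _ pt_x1]
      fin_cases b <;> fin_cases i <;> simp [z1] <;> norm_num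
    rw [h1]
    simp [Matrix.det_succ_row_zero, Fin.sum_univ_succ, Fin.succAbove]
    norm_num
  · have h1 : qh (c1 : Ix a1 → ℚ) s1.f.succ (pt (rd s1 x1)) (dr x1) (x1 (.z s1.j)) =
      qv 0 0 0 0 (dr x1) (z1 3) := qh_eq _ pt_x1 _ _
    rw [h1, dr_eq]
    simp [qv, sQ, tQ, Q, xv, yv, vpv, L1, L2, L3, z1, x1]
  · refine Finset.prod_ne_zero_iff.2 fun r _ => ?_
    rw [det_eq _ (pl_eq x1 _)]
    norm_num
  · refine Finset.prod_ne_zero_iff.2 fun r _ => Finset.prod_ne_zero_iff.2 fun r' _ => ?_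
    show (if r = r' then 1 else t1 r - t1 r') ≠ 0
    fin_cases r <;> fin_cases r' <;> simp [t1] <;> norm_num
  · refine Finset.prod_ne_zero_iff.2 fun r _ => ?_
    show t1 r ≠ 0
    fin_cases r <;> simp [t1]
  · rw [Ah_eq _ (pl_eq x1 _)]
    simp [tQ, Q, xv, y1v, x1, t1]
    norm_num
  · have h1 : qh (c1 : Ix a1 → ℚ) s1.f.succ (pl s1 x1 (x1 (.t 0))) (dr x1) (x1 (.w 0)) = _ :=
      qh_eq _ (pl_eq x1 _) _ _
    rw [h1, dr_eq]
    simp [qv, sQ, tQ, Q, xv, yv, x1, vpv, L1, L2, L3, t1, w1]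
    norm_num

end Pool.Agent.Helper76.N4.E1
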