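import Mathlib
import Pool.Agent.Helper76.N4.E1Pp

/-!
# The example for type 1: the Jacobian
-/

set_option linter.unusedSimpArgs false

namespace Pool.Agent.Helper76.N4.E1

open Pool.Agent.Helper64.HK Pool.Agent.Helper24.HK
open Pool.Agent.Helper16.N4
open Pool.Agent.Helper28.HN (I aff)
open Pool.Agent.Helper60.HN (dl dl_fst dl_snd dl_ext dl_add dl_mul dl_sub dl_eq_zero dl_cast dl_one
  dl_pow aeval_dl)

variable (v : Un4 1 3 → ℚ)

/-- The first order point. -/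
noncomputable def xd : Un4 1 3 → DualNumber ℚ := fun j => dl (x1 j) (v j)

theorem xdu (i : Fin 4) : xd v (.u (0, i)) = dl 0 (v (.u (0, i))) := rfl

theorem xdz (i : Fin 4) : xd v (.z (0, i)) = dl (z1 i) (v (.z (0, i))) := rfl

theorem xdd (i : Fin 3) : xd v (.d i) = dl 0 (v (.d i)) := rfl

theorem xdt (i : Fin 4) : xd v (.t i) = dl (t1 i) (v (.t i)) := rfl

theorem xdw (i : Fin 4) : xd v (.w i) = dl (w1 i) (v (.w i)) := rfl

theorem snd0 {a b : ℚ} (h : dl a b = dl 0 0) : b = 0 := by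
  have h1 := congrArg TrivSqZeroExt.snd h
  rwa [dl_snd, dl_snd] at h1

theorem h_u0 (h : Eqn4 (c1 : Ix a1 → DualNumber ℚ) s1 (xd v) (.u (0, 0)) = 0) :
    12 * v (.u (0, 2)) + 2 * v (.u (0, 3)) = 0 := by
  have h1 := (eu0 _).symm.trans h
  rw [Ah_eq _ (pt_eq _)] at h1
  simp [tQ, Q, xv, y1v, xdu, xdz, xdd, xdt, xdw, z1, t1, w1, dl_zero, dl_one, dl_two, dl_ofNat, dl_mul, dl_add, dl_sub, dl_neg] at h1
  linear_combination snd0 h1

theorem h_u1 (h : Eqn4 (c1 : Ix a1 → DualNumber ℚ) s1 (xd v) (.u (0, 1)) = 0) :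
    8 * v (.u (0, 0)) + (-10) * v (.u (0, 3)) = 0 := by
  have h1 := (eu1 _).symm.trans h
  rw [Fh_eq _ (pt_eq _)] at h1
  simp [tQ, Q, xv, yv, xdu, xdz, xdd, xdt, xdw, z1, t1, w1, dl_zero, dl_one, dl_two, dl_ofNat, dl_mul, dl_add, dl_sub, dl_neg] at h1
  linear_combination snd0 h1

theorem h_u2 (h : Eqn4 (c1 : Ix a1 → DualNumber ℚ) s1 (xd v) (.u (0, 2)) = 0) :
    8 * v (.u (0, 0)) + 12 * v (.u (0, 2)) + 4 * v (.u (0, 3)) = 0 := by
  have h1 := (eu2 _).symm.trans h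
  rw [Fh_eq _ (pt_eq _)] at h1
  simp [tQ, Q, xv, yv, xdu, xdz, xdd, xdt, xdw, z1, t1, w1, dl_zero, dl_one, dl_two, dl_ofNat, dl_mul, dl_add, dl_sub, dl_neg] at h1
  linear_combination snd0 h1

theorem h_u3 (h : Eqn4 (c1 : Ix a1 → DualNumber ℚ) s1 (xd v) (.u (0, 3)) = 0) :
    (-4) * v (.u (0, 1)) + 24 * v (.u (0, 2)) + 8 * v (.u (0, 3)) + (-8) * v (.z (0, 0)) +
      (-32) * v (.z (0, 3)) = 0 := by
  have h1 := (eu3 _).symm.trans h
  rw [xhz _ (pt_eq _), qh_eq _ (pt_eq _)] at h1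
  simp [qv, sQ, tQ, Q, xv, yv, vpv, xiv, L1, L2, L3, xdu, xdz, xdd, xdt, xdw, z1, t1, w1, dl_zero, dl_one, dl_two, dl_ofNat, dl_mul, dl_add, dl_sub, dl_neg] at h1
  linear_combination snd0 h1

theorem h_z0 (h : Eqn4 (c1 : Ix a1 → DualNumber ℚ) s1 (xd v) (.z (0, 0)) = 0) :
    (-12) * v (.u (0, 0)) + (-2) * v (.u (0, 1)) + 2 * v (.u (0, 2)) + 4 * v (.u (0, 3)) +
      (-24) * v (.z (0, 0)) = 0 := by
  have h1 := (ez _ 0).symm.trans h
  rw [psh_eq _ (pt_eq _)] at h1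
  simp [sQ, Q, xv, yv, xiv, xdu, xdz, xdd, xdt, xdw, z1, t1, w1, dl_zero, dl_one, dl_two, dl_ofNat, dl_mul, dl_add, dl_sub, dl_neg] at h1
  linear_combination snd0 h1

theorem h_z1 (h : Eqn4 (c1 : Ix a1 → DualNumber ℚ) s1 (xd v) (.z (0, 1)) = 0) :
    52 * v (.u (0, 0)) + (-2) * v (.u (0, 1)) + (-18) * v (.u (0, 2)) + (-4) * v (.u (0, 3)) +
      (-24) * v (.z (0, 1)) = 0 := by
  have h1 := (ez _ 1).symm.trans h
  rw [psh_eq _ (pt_eq _)] at h1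
  simp [sQ, Q, xv, yv, xiv, xdu, xdz, xdd, xdt, xdw, z1, t1, w1, dl_zero, dl_one, dl_two, dl_ofNat, dl_mul, dl_add, dl_sub, dl_neg] at h1
  linear_combination snd0 h1

theorem h_z2 (h : Eqn4 (c1 : Ix a1 → DualNumber ℚ) s1 (xd v) (.z (0, 2)) = 0) :
    12 * v (.u (0, 0)) + (-2) * v (.u (0, 1)) + (-10) * v (.u (0, 2)) + (-2) * v (.u (0, 3)) +
      6 * v (.z (0, 2)) = 0 := by
  have h1 := (ez _ 2).symm.trans h
  rw [psh_eq _ (pt_eq _)] at h1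
  simp [sQ, Q, xv, yv, xiv, xdu, xdz, xdd, xdt, xdw, z1, t1, w1, dl_zero, dl_one, dl_two, dl_ofNat, dl_mul, dl_add, dl_sub, dl_neg] at h1
  linear_combination snd0 h1

theorem h_z3 (h : Eqn4 (c1 : Ix a1 → DualNumber ℚ) s1 (xd v) (.z (0, 3)) = 0) :
    4 * v (.u (0, 0)) + (-2) * v (.u (0, 1)) + 6 * v (.u (0, 2)) + 2 * v (.u (0, 3)) +
      6 * v (.z (0, 3)) = 0 := by
  have h1 := (ez _ 3).symm.trans h
  rw [psh_eq _ (pt_eq _)] at h1
  simp [sQ, Q, xv, yv, xiv, xdu, xdz, xdd, xdt, xdw, z1, t1, w1, dl_zero, dl_one, dl_two, dl_ofNat, dl_mul, dl_add, dl_sub, dl_neg] at h1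
  linear_combination snd0 h1

theorem h_d0 (h : Eqn4 (c1 : Ix a1 → DualNumber ℚ) s1 (xd v) (.d 0) = 0) :
    56 * v (.u (0, 0)) + 12 * v (.u (0, 2)) + (-24) * v (.u (0, 3)) + 4 * v (.d 0) +
      32 * v (.d 1) + (-48) * v (.d 2) + 56 * v (.t 1) + 16 * v (.w 1) = 0 := by
  have h1 := (ed _ 0).symm.trans h
  rw [qh_eq _ (pl_eq _ _), dr_eq] at h1
  simp [qv, sQ, tQ, Q, xv, yv, vpv, L1, L2, L3, xdu, xdz, xdd, xdt, xdw, z1, t1, w1, dl_zero, dl_one, dl_two, dl_ofNat, dl_mul, dl_add, dl_sub, dl_neg] at h1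
  linear_combination snd0 h1

theorem h_d1 (h : Eqn4 (c1 : Ix a1 → DualNumber ℚ) s1 (xd v) (.d 1) = 0) :
    (-16) * v (.u (0, 0)) + 24 * v (.u (0, 1)) + (-12) * v (.u (0, 2)) + 16 * v (.u (0, 3)) +
      (-36) * v (.d 0) + 16 * v (.d 1) + (-24) * v (.d 2) + (-16) * v (.t 2) +
      (-24) * v (.w 2) = 0 := by
  have h1 := (ed _ 1).symm.trans h
  rw [qh_eq _ (pl_eq _ _), dr_eq] at h1
  simp [qv, sQ, tQ, Q, xv, yv, vpv, L1, L2, L3, xdu, xdz, xdd, xdt, xdw, z1, t1, w1, dl_zero, dl_one, dl_two, dl_ofNat, dl_mul, dl_add, dl_sub, dl_neg] at h1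
  linear_combination snd0 h1

theorem h_d2 (h : Eqn4 (c1 : Ix a1 → DualNumber ℚ) s1 (xd v) (.d 2) = 0) :
    24 * v (.u (0, 0)) + (-24) * v (.u (0, 2)) + (-12) * v (.u (0, 3)) + (-48) * v (.d 1) +
      (-42) * v (.d 2) + 24 * v (.t 3) + 48 * v (.w 3) = 0 := by
  have h1 := (ed _ 2).symm.trans h
  rw [qh_eq _ (pl_eq _ _), dr_eq] at h1
  simp [qv, sQ, tQ, Q, xv, yv, vpv, L1, L2, L3, xdu, xdz, xdd, xdt, xdw, z1, t1, w1, dl_zero, dl_one, dl_two, dl_ofNat, dl_mul, dl_add, dl_sub, dl_neg] at h1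
  linear_combination snd0 h1

theorem h_t0 (h : Eqn4 (c1 : Ix a1 → DualNumber ℚ) s1 (xd v) (.t 0) = 0) :
    152 * v (.u (0, 0)) + (-24) * v (.u (0, 1)) + (-40) * v (.u (0, 2)) +
      (-18) * v (.u (0, 3)) + 48 * v (.d 0) + 80 * v (.d 1) + 36 * v (.d 2) + 152 * v (.t 0) +
      16 * v (.w 0) = 0 := by
  have h1 := (et _ 0).symm.trans h
  rw [Ah_eq _ (pl_eq _ _), Bh_eq _ (pl_eq _ _)] at h1
  simp [tQ, Q, xv, y0v, y1v, xdu, xdz, xdd, xdt, xdw, z1, t1, w1, dl_zero, dl_one, dl_two, dl_ofNat, dl_mul, dl_add, dl_sub, dl_neg] at h1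
  linear_combination snd0 h1

theorem h_t1 (h : Eqn4 (c1 : Ix a1 → DualNumber ℚ) s1 (xd v) (.t 1) = 0) :
    8 * v (.u (0, 0)) + 14 * v (.u (0, 2)) + (-6) * v (.u (0, 3)) + 14 * v (.d 1) +
      (-6) * v (.d 2) + 8 * v (.t 1) + 4 * v (.w 1) = 0 := by
  have h1 := (et _ 1).symm.trans h
  rw [Ah_eq _ (pl_eq _ _), Bh_eq _ (pl_eq _ _)] at h1
  simp [tQ, Q, xv, y0v, y1v, xdu, xdz, xdd, xdt, xdw, z1, t1, w1, dl_zero, dl_one, dl_two, dl_ofNat, dl_mul, dl_add, dl_sub, dl_neg] at h1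
  linear_combination snd0 h1

theorem h_t2 (h : Eqn4 (c1 : Ix a1 → DualNumber ℚ) s1 (xd v) (.t 2) = 0) :
    (-12) * v (.u (0, 0)) + 4 * v (.u (0, 1)) + (-6) * v (.u (0, 2)) + (-6) * v (.u (0, 3)) +
      (-4) * v (.d 0) + 6 * v (.d 1) + 6 * v (.d 2) + (-12) * v (.t 2) = 0 := by
  have h1 := (et _ 2).symm.trans h
  rw [Ah_eq _ (pl_eq _ _), Bh_eq _ (pl_eq _ _)] at h1
  simp [tQ, Q, xv, y0v, y1v, xdu, xdz, xdd, xdt, xdw, z1, t1, w1, dl_zero, dl_one, dl_two, dl_ofNat, dl_mul, dl_add, dl_sub, dl_neg] at h1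
  linear_combination snd0 h1

theorem h_t3 (h : Eqn4 (c1 : Ix a1 → DualNumber ℚ) s1 (xd v) (.t 3) = 0) :
    24 * v (.u (0, 0)) + 8 * v (.u (0, 1)) + (-64) * v (.u (0, 2)) + (-46) * v (.u (0, 3)) +
      16 * v (.d 0) + (-128) * v (.d 1) + (-92) * v (.d 2) + 24 * v (.t 3) + 144 * v (.w 3) = 0 := by
  have h1 := (et _ 3).symm.trans h
  rw [Ah_eq _ (pl_eq _ _), Bh_eq _ (pl_eq _ _)] at h1
  simp [tQ, Q, xv, y0v, y1v, xdu, xdz, xdd, xdt, xdw, z1, t1, w1, dl_zero, dl_one, dl_two, dl_ofNat, dl_mul, dl_add, dl_sub, dl_neg] at h1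
  linear_combination snd0 h1

theorem h_w0 (h : Eqn4 (c1 : Ix a1 → DualNumber ℚ) s1 (xd v) (.w 0) = 0) :
    16 * v (.u (0, 0)) + (-80) * v (.u (0, 1)) + (-6) * v (.u (0, 3)) + 160 * v (.d 0) +
      12 * v (.d 2) + 16 * v (.t 0) + 32 * v (.w 0) = 0 := by
  have h1 := (ew _ 0).symm.trans h
  rw [Bh_eq _ (pl_eq _ _), Ch_eq _ (pl_eq _ _)] at h1
  simp [tQ, Q, xv, y0v, y1v, xdu, xdz, xdd, xdt, xdw, z1, t1, w1, dl_zero, dl_one, dl_two, dl_ofNat, dl_mul, dl_add, dl_sub, dl_neg] at h1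
  linear_combination snd0 h1

theorem h_w1 (h : Eqn4 (c1 : Ix a1 → DualNumber ℚ) s1 (xd v) (.w 1) = 0) :
    (-8) * v (.u (0, 0)) + 4 * v (.u (0, 1)) + 6 * v (.u (0, 2)) + (-18) * v (.u (0, 3)) +
      4 * v (.d 0) + 6 * v (.d 1) + (-18) * v (.d 2) + (-8) * v (.t 1) + (-4) * v (.w 1) = 0 := by
  have h1 := (ew _ 1).symm.trans h
  rw [Bh_eq _ (pl_eq _ _), Ch_eq _ (pl_eq _ _)] at h1
  simp [tQ, Q, xv, y0v, y1v, xdu, xdz, xdd, xdt, xdw, z1, t1, w1, dl_zero, dl_one, dl_two, dl_ofNat, dl_mul, dl_add, dl_sub, dl_neg] at h1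
  linear_combination snd0 h1

theorem h_w2 (h : Eqn4 (c1 : Ix a1 → DualNumber ℚ) s1 (xd v) (.w 2) = 0) :
    (-12) * v (.u (0, 0)) + (-8) * v (.u (0, 1)) + (-2) * v (.u (0, 2)) +
      (-14) * v (.u (0, 3)) + 8 * v (.d 0) + 2 * v (.d 1) + 14 * v (.d 2) + (-12) * v (.t 2) = 0 := by
  have h1 := (ew _ 2).symm.trans h
  rw [Bh_eq _ (pl_eq _ _), Ch_eq _ (pl_eq _ _)] at h1
  simp [tQ, Q, xv, y0v, y1v, xdu, xdz, xdd, xdt, xdw, z1, t1, w1, dl_zero, dl_one, dl_two, dl_ofNat, dl_mul, dl_add, dl_sub, dl_neg] at h1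
  linear_combination snd0 h1

theorem h_w3 (h : Eqn4 (c1 : Ix a1 → DualNumber ℚ) s1 (xd v) (.w 3) = 0) :
    (-18) * v (.u (0, 3)) + (-36) * v (.d 2) = 0 := by
  have h1 := (ew _ 3).symm.trans h
  rw [Bh_eq _ (pl_eq _ _), Ch_eq _ (pl_eq _ _)] at h1
  simp [tQ, Q, xv, y0v, y1v, xdu, xdz, xdd, xdt, xdw, z1, t1, w1, dl_zero, dl_one, dl_two, dl_ofNat, dl_mul, dl_add, dl_sub, dl_neg] at h1
  linear_combination snd0 h1

theorem v_zero (h : ∀ i, Eqn4 (c1 : Ix a1 → DualNumber ℚ) s1 (xd v) i = 0) : v = 0 := by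
  have h_u0' := h_u0 v (h _)
  have h_u1' := h_u1 v (h _)
  have h_u2' := h_u2 v (h _)
  have h_u3' := h_u3 v (h _)
  have h_z0' := h_z0 v (h _)
  have h_z1' := h_z1 v (h _)
  have h_z2' := h_z2 v (h _)
  have h_z3' := h_z3 v (h _)
  have h_d0' := h_d0 v (h _)
  have h_d1' := h_d1 v (h _)
  have h_d2' := h_d2 v (h _)
  have h_t0' := h_t0 v (h _)
  have h_t1' := h_t1 v (h _)
  have h_t2' := h_t2 v (h _)
  have h_t3' := h_t3 v (h _)
  have h_w0' := h_w0 v (h _)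
  have h_w1' := h_w1 v (h _)
  have h_w2' := h_w2 v (h _)
  have h_w3' := h_w3 v (h _)
  have g_u0 : v (.u (0, 0)) = 0 := by
    linear_combination (-5 / 48) * h_u0' + (1 / 48) * h_u1' + (5 / 48) * h_u2'
  have g_u1 : v (.u (0, 1)) = 0 := by
    linear_combination (5 / 54) * h_u0' + (-2 / 189) * h_u1' + (179 / 756) * h_u2' + (-1 / 14) * h_u3' +
      (1 / 42) * h_z0' + (-8 / 21) * h_z3'
  have g_u2 : v (.u (0, 2)) = 0 := by
    linear_combination (7 / 72) * h_u0' + (1 / 72) * h_u1' + (-1 / 72) * h_u2'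
  have g_u3 : v (.u (0, 3)) = 0 := by
    linear_combination (-1 / 12) * h_u0' + (-1 / 12) * h_u1' + (1 / 12) * h_u2'
  have g_z0 : v (.z (0, 0)) = 0 := by
    linear_combination (25 / 648) * h_u0' + (-101 / 4536) * h_u1' + (-67 / 1134) * h_u2' + (1 / 168) * h_u3' +
      (-11 / 252) * h_z0' + (2 / 63) * h_z3'
  have g_z1 : v (.z (0, 1)) = 0 := by
    linear_combination (-379 / 1296) * h_u0' + (449 / 9072) * h_u1' + (1837 / 9072) * h_u2' + (1 / 168) * h_u3' +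
      (-1 / 504) * h_z0' + (-1 / 24) * h_z1' + (2 / 63) * h_z3'
  have g_z2 : v (.z (0, 2)) = 0 := by
    linear_combination (121 / 324) * h_u0' + (-113 / 2268) * h_u1' + (-283 / 2268) * h_u2' + (-1 / 42) * h_u3' +
      (1 / 126) * h_z0' + (1 / 6) * h_z2' + (-8 / 63) * h_z3'
  have g_z3 : v (.z (0, 3)) = 0 := by
    linear_combination (5 / 162) * h_u0' + (-2 / 567) * h_u1' + (-5 / 1134) * h_u2' + (-1 / 42) * h_u3' +
      (1 / 126) * h_z0' + (5 / 126) * h_z3'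
  have g_d0 : v (.d 0) = 0 := by
    linear_combination (-127 / 1728) * h_u0' + (-193 / 1728) * h_u1' + (535 / 1728) * h_u2' + (-1 / 16) * h_u3' +
      (1 / 48) * h_z0' + (-1 / 3) * h_z3' + (1 / 64) * h_t1' + (-5 / 64) * h_t2' +
      (1 / 64) * h_w1' + (5 / 64) * h_w2' + (1 / 144) * h_w3'
  have g_d1 : v (.d 1) = 0 := by
    linear_combination (-29 / 192) * h_u0' + (-53 / 1344) * h_u1' + (-61 / 1344) * h_u2' + (3 / 112) * h_u3' +
      (-1 / 112) * h_z0' + (1 / 7) * h_z3' + (3 / 64) * h_t1' + (1 / 64) * h_t2' +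
      (3 / 64) * h_w1' + (-1 / 64) * h_w2' + (-5 / 144) * h_w3'
  have g_d2 : v (.d 2) = 0 := by
    linear_combination (1 / 24) * h_u0' + (1 / 24) * h_u1' + (-1 / 24) * h_u2' + (-1 / 36) * h_w3'
  have g_t0 : v (.t 0) = 0 := by
    linear_combination (887 / 5184) * h_u0' + (-187 / 5184) * h_u1' + (-119 / 5184) * h_u2' + (-1 / 48) * h_u3' +
      (1 / 144) * h_z0' + (-1 / 9) * h_z3' + (1 / 144) * h_t0' + (-13 / 576) * h_t1' +
      (-5 / 192) * h_t2' + (-1 / 288) * h_w0' + (-13 / 576) * h_w1' + (5 / 192) * h_w2' +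
      (23 / 864) * h_w3'
  have g_t1 : v (.t 1) = 0 := by
    linear_combination (1921 / 10368) * h_u0' + (1849 / 72576) * h_u1' + (-19471 / 72576) * h_u2' +
      (25 / 672) * h_u3' + (-25 / 2016) * h_z0' + (25 / 126) * h_z3' + (1 / 24) * h_d0' +
      (-47 / 384) * h_t1' + (11 / 384) * h_t2' + (17 / 384) * h_w1' + (-11 / 384) * h_w2' +
      (-55 / 864) * h_w3'
  have g_t2 : v (.t 2) = 0 := by
    linear_combination (1015 / 10368) * h_u0' + (505 / 10368) * h_u1' + (-2143 / 10368) * h_u2' +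
      (1 / 96) * h_u3' + (-1 / 288) * h_z0' + (1 / 18) * h_z3' + (7 / 384) * h_t1' +
      (-19 / 384) * h_t2' + (7 / 384) * h_w1' + (-13 / 384) * h_w2' + (-29 / 864) * h_w3'
  have g_t3 : v (.t 3) = 0 := by
    linear_combination (559 / 5184) * h_u0' + (-863 / 36288) * h_u1' + (-937 / 36288) * h_u2' +
      (-1 / 42) * h_u3' + (1 / 126) * h_z0' + (-8 / 63) * h_z3' + (1 / 16) * h_d2' +
      (1 / 48) * h_t1' + (-1 / 48) * h_t2' + (-1 / 48) * h_t3' + (1 / 48) * h_w1' +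
      (1 / 48) * h_w2' + (-25 / 864) * h_w3'
  have g_w0 : v (.w 0) = 0 := by
    linear_combination (5539 / 10368) * h_u0' + (36895 / 72576) * h_u1' + (-70069 / 72576) * h_u2' +
      (97 / 672) * h_u3' + (-97 / 2016) * h_z0' + (97 / 126) * h_z3' + (-1 / 288) * h_t0' +
      (-77 / 1152) * h_t1' + (155 / 384) * h_t2' + (19 / 576) * h_w0' + (-77 / 1152) * h_w1' +
      (-155 / 384) * h_w2' + (-65 / 1728) * h_w3'
  have g_w1 : v (.w 1) = 0 := by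
    linear_combination (-377 / 10368) * h_u0' + (-4769 / 72576) * h_u1' + (43415 / 72576) * h_u2' +
      (-113 / 672) * h_u3' + (113 / 2016) * h_z0' + (-113 / 126) * h_z3' + (-1 / 12) * h_d0' +
      (127 / 384) * h_t1' + (-43 / 384) * h_t2' + (-97 / 384) * h_w1' + (43 / 384) * h_w2' +
      (179 / 864) * h_w3'
  have g_w2 : v (.w 2) = 0 := by
    linear_combination (-1229 / 31104) * h_u0' + (-4325 / 217728) * h_u1' + (-18589 / 217728) * h_u2' +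
      (67 / 2016) * h_u3' + (-67 / 6048) * h_z0' + (67 / 378) * h_z3' + (-1 / 24) * h_d1' +
      (-5 / 1152) * h_t1' + (185 / 1152) * h_t2' + (-5 / 1152) * h_w1' + (-121 / 1152) * h_w2' +
      (43 / 2592) * h_w3'
  have g_w3 : v (.w 3) = 0 := by
    linear_combination (-919 / 10368) * h_u0' + (-1117 / 72576) * h_u1' + (-7775 / 72576) * h_u2' +
      (13 / 336) * h_u3' + (-13 / 1008) * h_z0' + (13 / 63) * h_z3' + (-1 / 96) * h_d2' +
      (7 / 192) * h_t1' + (5 / 192) * h_t2' + (1 / 96) * h_t3' + (7 / 192) * h_w1' +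
      (-5 / 192) * h_w2' + (-77 / 1728) * h_w3'
  funext i
  rcases i with ⟨j, i⟩ | ⟨j, i⟩ | i | r | r
  · obtain rfl : j = 0 := Subsingleton.elim _ _
    fin_cases i
    exacts [g_u0, g_u1, g_u2, g_u3]
  · obtain rfl : j = 0 := Subsingleton.elim _ _
    fin_cases i
    exacts [g_z0, g_z1, g_z2, g_z3]
  · fin_cases i
    exacts [g_d0, g_d1, g_d2]
  · fin_cases r
    exacts [g_t0, g_t1, g_t2, g_t3]
  · fin_cases r
    exacts [g_w0, g_w1, g_w2, g_w3]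

end Pool.Agent.Helper76.N4.E1
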