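import Mathlib
import Pool.Agent.Helper76.XN.ET
import Pool.Agent.Helper16.N4.Crv
import Pool.Agent.Helper45.N4.Nat

/-!
# Existence of configurations for general coefficients
-/

namespace Pool.Agent.Helper76.N4

open MvPolynomial Pool.Agent.Helper64.HK Pool.Agent.Helper24.HK
open Pool.Agent.Helper28.HN (I aff)
open Pool.Agent.Helper16.N4
open Pool.Agent.Helper45.N4 (map_Eqn4 map_Pa4 map_Pb4)

theorem map_Pp4 {k m : ℕ} {a : Fin (k + 1) → Fin (m + 1)} {S S' : Type*} [CommRing S] [CommRing S']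
    (f : S →+* S') (c : Ix a → S) (s : Sel4 k m) (x : Un4 k m → S) :
    f (Pp4 c s x) = Pp4 (fun e => f (c e)) s (fun b => f (x b)) := by
  rw [Pp4, map_mul, map_Pa4, map_Pb4, Pp4]

section

variable {k m : ℕ} {a : Fin (k + 1) → Fin (m + 1)} (s : Sel4 k m)

/-- The equations as polynomials in the coefficients and the unknowns. -/
noncomputable def FF (a : Fin (k + 1) → Fin (m + 1)) (s : Sel4 k m) (i : Un4 k m) :
    MvPolynomial (Ix a ⊕ Un4 k m) ℚ :=
  Eqn4 (fun e => X (Sum.inl e)) s (fun j => X (Sum.inr j)) i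

/-- The product as a polynomial in the coefficients and the unknowns. -/
noncomputable def GG (a : Fin (k + 1) → Fin (m + 1)) (s : Sel4 k m) :
    MvPolynomial (Ix a ⊕ Un4 k m) ℚ :=
  Pp4 (fun e => X (Sum.inl e)) s (fun j => X (Sum.inr j))

theorem eval_FF (c : Ix a → ℚ) (x : Un4 k m → ℚ) (i : Un4 k m) :
    eval (Sum.elim c x) (FF a s i) = Eqn4 c s x i := by
  have h := map_Eqn4 (eval (Sum.elim c x) : MvPolynomial (Ix a ⊕ Un4 k m) ℚ →+* ℚ)
    (fun e => X (Sum.inl e)) s (fun j => X (Sum.inr j)) i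
  change eval (Sum.elim c x) (FF a s i) = _ at h
  rw [h]
  congr 1
  · funext e
    simp
  · funext j
    simp

theorem eval_GG (c : Ix a → ℚ) (x : Un4 k m → ℚ) :
    eval (Sum.elim c x) (GG a s) = Pp4 c s x := by
  have h := map_Pp4 (eval (Sum.elim c x) : MvPolynomial (Ix a ⊕ Un4 k m) ℚ →+* ℚ)
    (fun e => X (Sum.inl e)) s (fun j => X (Sum.inr j))
  change eval (Sum.elim c x) (GG a s) = _ at h
  rw [h]
  congr 1
  · funext e
    simp
  · funext j
    simp

variable {L : Type*} [Field L] [CharZero L]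

theorem aeval_FF (c : Ix a → L) (x : Un4 k m → L) (i : Un4 k m) :
    aeval (Sum.elim c x) (FF a s i) = Eqn4 c s x i := by
  have h := map_Eqn4 (aeval (Sum.elim c x) : MvPolynomial (Ix a ⊕ Un4 k m) ℚ →ₐ[ℚ] L).toRingHom
    (fun e => X (Sum.inl e)) s (fun j => X (Sum.inr j)) i
  change aeval (Sum.elim c x) (FF a s i) = _ at h
  rw [h]
  congr 1
  · funext e
    simp
  · funext j
    simp

theorem aeval_GG (c : Ix a → L) (x : Un4 k m → L) :
    aeval (Sum.elim c x) (GG a s) = Pp4 c s x := by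
  have h := map_Pp4 (aeval (Sum.elim c x) : MvPolynomial (Ix a ⊕ Un4 k m) ℚ →ₐ[ℚ] L).toRingHom
    (fun e => X (Sum.inl e)) s (fun j => X (Sum.inr j))
  change aeval (Sum.elim c x) (GG a s) = _ at h
  rw [h]
  congr 1
  · funext e
    simp
  · funext j
    simp

/-- Specialisation of the coefficients. -/
noncomputable def sp (c : Ix a → L) : MvPolynomial (Ix a ⊕ Un4 k m) ℚ →ₐ[ℚ] MvPolynomial (Un4 k m) L :=
  aeval (Sum.elim (fun e => C (c e)) X)

theorem sp_pderiv (c : Ix a → L) (j : Un4 k m) (P : MvPolynomial (Ix a ⊕ Un4 k m) ℚ) :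
    pderiv j (sp c P) = sp c (pderiv (Sum.inr j) P) := by
  classical
  induction P using MvPolynomial.induction_on with
  | C a =>
    rw [show sp c (C a : MvPolynomial (Ix _ ⊕ Un4 k m) ℚ) = C (algebraMap ℚ L a) by
      rw [sp, aeval_C]
      rfl]
    simp
  | add p q hp hq => simp [hp, hq]
  | mul_X p s hp =>
    rw [map_mul, Derivation.leibniz, Derivation.leibniz, map_add, hp]
    simp only [smul_eq_mul, map_mul]
    congr 2
    rcases s with e | i
    · simp [sp, pderiv_X]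
    · simp [sp, pderiv_X, Pi.single_apply]

theorem eval_sp (c : Ix a → L) (x : Un4 k m → L) (P : MvPolynomial (Ix a ⊕ Un4 k m) ℚ) :
    eval x (sp c P) = aeval (Sum.elim c x) P := by
  have : ((aeval x : MvPolynomial (Un4 k m) L →ₐ[L] L).restrictScalars ℚ).comp (sp c) =
      aeval (Sum.elim c x) := by
    ext s
    rcases s with e | i
    · simp [sp]
    · simp [sp]
  have h := DFunLike.congr_fun this P
  rw [← h]
  simp [aeval_eq_eval]

theorem sp_FF (c : Ix a → L) (i : Un4 k m) : sp c (FF a s i) = Gs4 c s i := by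
  have h := map_Eqn4 (sp c : MvPolynomial (Ix a ⊕ Un4 k m) ℚ →ₐ[ℚ] MvPolynomial (Un4 k m) L).toRingHom
    (fun e => X (Sum.inl e)) s (fun j => X (Sum.inr j)) i
  change sp c (FF a s i) = _ at h
  rw [h, Gs4]
  congr 1
  · funext e
    simp [sp]
  · funext j
    simp [sp]

theorem jac_eq (c : Ix a → L) (x : Un4 k m → L) (i : Un4 k m) (j : Un4 k m) :
    aeval (Sum.elim c x) (pderiv (Sum.inr j) (FF a s i)) = eval x (pderiv j (Gs4 c s i)) := by
  rw [← sp_FF, sp_pderiv, eval_sp]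

end

/-- From an example over `ℚ`. -/
theorem exc_of {k m : ℕ} {a : Fin (k + 1) → Fin (m + 1)} (s : Sel4 k m) (c0 : Ix a → ℚ)
    (x0 : Un4 k m → ℚ) (h1 : ∀ i, Eqn4 c0 s x0 i = 0) (h2 : Pp4 c0 s x0 ≠ 0)
    (h3 : (Matrix.of fun i j => MvPolynomial.eval x0
      (MvPolynomial.pderiv j (Gs4 c0 s i))).det ≠ 0) : ExC a := by
  obtain ⟨Δ, hΔ, h⟩ := Helper76.XN.et (E := Ix a) (I := Un4 k m) (fun i => FF a s i) (GG a s) c0 x0
    (fun i => by rw [eval_FF]; exact h1 _) (by
      have h4 : ∀ i j, eval x0 (pderiv j (Gs4 c0 s i)) =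
          eval (Sum.elim c0 x0) (pderiv (Sum.inr j) (FF a s i)) := by
        intro i j
        rw [← jac_eq]
        exact congrArg (fun f : ℚ →+* ℚ => eval₂ f (Sum.elim c0 x0)
          (pderiv (Sum.inr j) (FF a s i))) (Subsingleton.elim _ (RingHom.id ℚ))
      simpa only [h4] using h3) (by rw [eval_GG]; exact h2)
  refine ⟨s, Δ, hΔ, fun K _ _ c hc => ?_⟩
  obtain ⟨L, _, _, _, _, x, g1, g2, g3⟩ := h K c hc
  have hL : NumberField L := NumberField.of_module_finite K L
  refine ⟨L, inferInstance, hL, inferInstance, x, ?_, ?_, ?_⟩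
  · intro i
    have h5 := g1 i
    rwa [aeval_FF] at h5
  · rwa [aeval_GG] at g3
  · simpa only [jac_eq] using g2

end Pool.Agent.Helper76.N4
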