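import Mathlib
import Pool.Agent.Helper76.N4.Exist
import Pool.Agent.Helper76.N4.E1Jac

/-!
# Existence of configurations for type 1
-/

namespace Pool.Agent.Helper76.N4

open Pool.Agent.Helper64.HK Pool.Agent.Helper16.N4

theorem exc1 : ExC (![0, 0] : Fin (1 + 1) → Fin (3 + 1)) := by
  refine exc_of (a := E1.a1) E1.s1 E1.c1 E1.x1 E1.ex_eqn E1.ex_pp
    (jac E1.s1 E1.c1 E1.x1 E1.ex_eqn fun v hv => E1.v_zero v fun i => ?_)
  have h := hv i
  rw [E1.c1, map_cM (a := E1.a1) (algebraMap ℚ (DualNumber ℚ)) E1.M1] at h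
  exact h

end Pool.Agent.Helper76.N4
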