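import Mathlib
import Pool.Agent.Helper76.N4.Mon

/-!
# The example for type 2: closed formulas
-/

set_option linter.unusedSimpArgs false

namespace Pool.Agent.Helper76.N4.E2

open Pool.Agent.Helper64.HK Pool.Agent.Helper24.HK
open Pool.Agent.Helper16.N4
open Pool.Agent.Helper28.HN (I aff)

/-- The type. -/
abbrev a2 : Fin (1 + 1) → Fin (3 + 1) := ![0, 1]

/-- The monomial `x i * y k * y l`. -/
def mq (c : ℤ) (i k l : Fin 5) : Mo 1 3 := ⟨c, ![k, i], ![l, 0]⟩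

/-- The monomial `x i * x j * y k`. -/
def ms (c : ℤ) (i j k : Fin 5) : Mo 1 3 := ⟨c, ![k, i], ![0, j]⟩

/-- The monomial `y k * x i`. -/
def ml (c : ℤ) (k i : Fin 5) : Mo 1 3 := ⟨c, ![k, i], ![0, 0]⟩

/-- The forms. -/
def M2 : Fin (3 + 1) → List (Mo 1 3) := ![
  [mq (-6) 0 0 4, mq 4 1 0 0, mq (-4) 1 0 2, mq 1 1 2 2, mq 4 1 0 3, mq (-2) 1 0 4, mq 2 1 2 4,
    mq (-2) 1 1 3, mq 2 1 1 4, mq 1 1 3 4, mq 2 3 0 0, mq (-1) 3 0 1, mq (-1) 3 1 1, mq 1 4 0 0],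
  [ms 1 0 0 4, ms (-1) 1 1 3, ms 2 0 3 0, ms (-2) 0 3 1, ms 1 0 4 1, ms (-1) 0 4 0, ms 1 2 2 0],
  [ml 1 2 0, ml (-1) 0 1, ml 1 1 2],
  [ml 1 3 0, ml (-1) 1 1, ml 1 0 3]]

variable {S : Type*} [CommRing S]

/-- The form of degree two in `y`. -/
def Q (x y y' : I 3 → S) : S :=
  -6 * x 0 * y 0 * y' 4 + x 1 * (4 * y 0 * y' 0 - 4 * y 0 * y' 2 + y 2 * y' 2 + 4 * y 0 * y' 3 -
    2 * y 0 * y' 4 + 2 * y 2 * y' 4 - 2 * y 1 * y' 3 + 2 * y 1 * y' 4 + y 3 * y' 4) +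
  x 3 * (2 * y 0 * y' 0 - y 0 * y' 1 - y 1 * y' 1) + x 4 * y 0 * y' 0

/-- The form of degree two in `x`. -/
def P (x x' y : I 3 → S) : S :=
  x 0 * x' 0 * y 4 - x 1 * x' 1 * y 3 + 2 * x 0 * x' 3 * (y 0 - y 1) + x 0 * x' 4 * (y 1 - y 0) +
    x 2 * x' 2 * y 0

/-- The linear forms. -/
def L1 (x y : I 3 → S) : S := x 0 * y 2 - x 1 * y 0 + x 2 * y 1

/-- The linear forms. -/
def L2 (x y : I 3 → S) : S := x 0 * y 3 - x 1 * y 1 + x 3 * y 0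

/-- The coefficients. -/
def c2 : Ix a2 → S := cM M2

theorem M20 (U V : Fin (1 + 1) → I 3 → S) : Mf (c2 : Ix a2 → S) 0 U V = Q (U 1) (U 0) (V 0) := by
  rw [c2, Mf_two]
  simp [M2, mq, Q]
  ring

theorem M21 (U V : Fin (1 + 1) → I 3 → S) : Mf (c2 : Ix a2 → S) 1 U V = P (U 1) (V 1) (U 0) := by
  rw [c2, Mf_two]
  simp [M2, ms, P]
  ring

theorem M22 (U V : Fin (1 + 1) → I 3 → S) : Mf (c2 : Ix a2 → S) 2 U V = L1 (U 1) (U 0) := by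
  rw [c2, Mf_two]
  simp [M2, ml, L1]
  ring

theorem M23 (U V : Fin (1 + 1) → I 3 → S) : Mf (c2 : Ix a2 → S) 3 U V = L2 (U 1) (U 0) := by
  rw [c2, Mf_two]
  simp [M2, ml, L2]
  ring

/-- The form `P` as a bilinear form in `x`. -/
def sP (x x' y : I 3 → S) : S := P x x' y + P x' x y

/-- The form `Q` as a bilinear form in `y`. -/
def tQ (x y y' : I 3 → S) : S := Q x y y' + Q x y' y

/-- The point of the chart. -/
def xv (x1 x2 x3 x4 : S) : I 3 → S := ![1, x1, x2, x3, x4]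

/-- `Y0`. -/
def y0v (x1 x2 x3 x4 : S) : I 3 → S :=
  ![1, 0, x1, -x3, -x1 * x1 * x3 - 2 * x3 + x4 - x2 * x2]

/-- `Y1`. -/
def y1v (x1 x2 x3 x4 : S) : I 3 → S :=
  ![0, 1, -x2, x1, x1 * x1 * x1 + 2 * x3 - x4]

/-- `yh`. -/
def yv (x1 x2 x3 x4 z : S) : I 3 → S :=
  ![1, z, x1 - z * x2, z * x1 - x3,
    z * (x1 * x1 * x1 + 2 * x3 - x4) - x1 * x1 * x3 - 2 * x3 + x4 - x2 * x2]

/-- The coefficient of `x 1`. -/
def av (z y2 y3 y4 : S) : S :=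
  4 - 4 * y2 + y2 * y2 + 4 * y3 - 2 * y4 + 2 * y2 * y4 - 2 * z * y3 + 2 * z * y4 + y3 * y4

/-- The determinant of `Nx`. -/
def nv (z y2 y3 y4 : S) : S := z * av z y2 y3 y4 + z * z * (2 - z - z * z)

/-- `vh`. -/
def vv (z y2 y3 y4 : S) : Fin 4 → S := ![-z, -1, -z * z, nv z y2 y3 y4]

/-- `xh`. -/
def xiv (z y2 y3 y4 : S) : I 3 → S := ![0, -z, -1, -z * z, nv z y2 y3 y4]

variable (X : Fin (1 + 1) → I 3 → S) {x1 x2 x3 x4 : S}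

theorem rf0 (r : Fin 3) (v : I 3 → S) : rf (c2 : Ix a2 → S) 0 X r v =
    ![P (X 1) (X 1) v, L1 (X 1) v, L2 (X 1) v] r := by
  fin_cases r
  · exact M21 _ _
  · exact M22 _ _
  · exact M23 _ _

theorem rf1 (r : Fin 3) (v : I 3 → S) : rf (c2 : Ix a2 → S) 1 X r v =
    ![Q v (X 0) (X 0), L1 v (X 0), L2 v (X 0)] r := by
  fin_cases r
  · exact M20 _ _
  · exact M22 _ _
  · exact M23 _ _

theorem Mx_eq (h : X 1 = xv x1 x2 x3 x4) :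
    Mx (c2 : Ix a2 → S) X = !![0, -x1 * x1, 1; 1, 0, 0; 0, 1, 0] := by
  ext r b
  unfold Mx
  rw [rf0, h]
  fin_cases r <;> fin_cases b <;> simp [P, L1, L2, xv, Fin.ext_iff]

theorem det_eq (h : X 1 = xv x1 x2 x3 x4) : (Mx (c2 : Ix a2 → S) X).det = 1 := by
  rw [Mx_eq X h, Matrix.det_fin_three]
  simp

theorem adj_eq (h : X 1 = xv x1 x2 x3 x4) :
    (Mx (c2 : Ix a2 → S) X).adjugate = !![0, 1, 0; 0, 0, 1; 1, 0, x1 * x1] := by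
  rw [Mx_eq X h, Matrix.adjugate_fin_three_of]
  ext r b
  fin_cases r <;> fin_cases b <;> simp

theorem Y0_eq (h : X 1 = xv x1 x2 x3 x4) : Y0 (c2 : Ix a2 → S) X = y0v x1 x2 x3 x4 := by
  unfold Y0
  rw [det_eq X h, adj_eq X h]
  funext i
  fin_cases i
  · rfl
  · rfl
  · show -(Matrix.mulVec _ _ 0) = _
    simp [Matrix.mulVec, dotProduct, Fin.sum_univ_three, rf0, h, P, L1, L2, xv, y0v, Fin.ext_iff]
  · show -(Matrix.mulVec _ _ 1) = _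
    simp [Matrix.mulVec, dotProduct, Fin.sum_univ_three, rf0, h, P, L1, L2, xv, y0v, Fin.ext_iff]
  · show -(Matrix.mulVec _ _ 2) = _
    simp [Matrix.mulVec, dotProduct, Fin.sum_univ_three, rf0, h, P, L1, L2, xv, y0v, Fin.ext_iff]
    ring

theorem Y1_eq (h : X 1 = xv x1 x2 x3 x4) : Y1 (c2 : Ix a2 → S) X = y1v x1 x2 x3 x4 := by
  unfold Y1
  rw [det_eq X h, adj_eq X h]
  funext i
  fin_cases i
  · rfl
  · rfl
  · show -(Matrix.mulVec _ _ 0) = _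
    simp [Matrix.mulVec, dotProduct, Fin.sum_univ_three, rf0, h, P, L1, L2, xv, y1v, Fin.ext_iff]
  · show -(Matrix.mulVec _ _ 1) = _
    simp [Matrix.mulVec, dotProduct, Fin.sum_univ_three, rf0, h, P, L1, L2, xv, y1v, Fin.ext_iff]
  · show -(Matrix.mulVec _ _ 2) = _
    simp [Matrix.mulVec, dotProduct, Fin.sum_univ_three, rf0, h, P, L1, L2, xv, y1v, Fin.ext_iff]
    ring

theorem yh_eq (h : X 1 = xv x1 x2 x3 x4) (z : S) :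
    yh (c2 : Ix a2 → S) X z = yv x1 x2 x3 x4 z := by
  unfold yh
  rw [Y0_eq X h, Y1_eq X h]
  funext i
  fin_cases i <;> simp [y0v, y1v, yv] <;> ring

theorem Nx_eq {z y2 y3 y4 : S} (h : X 0 = ![1, z, y2, y3, y4]) :
    Nx (c2 : Ix a2 → S) 1 X = !![av z y2 y3 y4, 0, 2 - z - z * z; -1, z, 0; -z, 0, 1] := by
  ext r b
  unfold Nx
  rw [rf1, h]
  fin_cases r <;> fin_cases b <;> simp [Q, L1, L2, av, Fin.ext_iff]

theorem detN_eq {z y2 y3 y4 : S} (h : X 0 = ![1, z, y2, y3, y4]) :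
    (Nx (c2 : Ix a2 → S) 1 X).det = nv z y2 y3 y4 := by
  rw [Nx_eq X h, Matrix.det_fin_three]
  simp [nv]
  ring

theorem vh_eq {z y2 y3 y4 : S} (h : X 0 = ![1, z, y2, y3, y4]) :
    vh (c2 : Ix a2 → S) 1 X = vv z y2 y3 y4 := by
  unfold vh
  rw [detN_eq X h, Nx_eq X h, Matrix.adjugate_fin_three_of]
  funext i
  fin_cases i
  · show -(Matrix.mulVec _ _ 0) = _
    simp [Matrix.mulVec, dotProduct, Fin.sum_univ_three, rf1, h, Q, L1, L2, vv, Fin.ext_iff]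
  · show -(Matrix.mulVec _ _ 1) = _
    simp [Matrix.mulVec, dotProduct, Fin.sum_univ_three, rf1, h, Q, L1, L2, vv, Fin.ext_iff]
  · show -(Matrix.mulVec _ _ 2) = _
    simp [Matrix.mulVec, dotProduct, Fin.sum_univ_three, rf1, h, Q, L1, L2, vv, Fin.ext_iff]
  · rfl

theorem xh_eq {z y2 y3 y4 : S} (h : X 0 = ![1, z, y2, y3, y4]) :
    xh (c2 : Ix a2 → S) 1 X = xiv z y2 y3 y4 := by
  unfold xh
  rw [vh_eq X h]
  rfl

theorem P0_eq (v w : I 3 → S) : Pf (c2 : Ix a2 → S) 0 X v w = tQ (X 1) v w := by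
  unfold Pf
  exact congrArg₂ (· + ·) (M20 _ _) (M20 _ _)

theorem P1_eq (v w : I 3 → S) : Pf (c2 : Ix a2 → S) 1 X v w = sP v w (X 0) := by
  unfold Pf
  exact congrArg₂ (· + ·) (M21 _ _) (M21 _ _)

theorem Ah_eq (h : X 1 = xv x1 x2 x3 x4) : Ah (c2 : Ix a2 → S) X =
    tQ (xv x1 x2 x3 x4) (y1v x1 x2 x3 x4) (y1v x1 x2 x3 x4) := by
  unfold Ah
  rw [P0_eq, Y1_eq X h, h]

theorem Bh_eq (h : X 1 = xv x1 x2 x3 x4) : Bh (c2 : Ix a2 → S) X =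
    tQ (xv x1 x2 x3 x4) (y0v x1 x2 x3 x4) (y1v x1 x2 x3 x4) := by
  unfold Bh
  rw [P0_eq, Y0_eq X h, Y1_eq X h, h]

theorem Ch_eq (h : X 1 = xv x1 x2 x3 x4) : Ch (c2 : Ix a2 → S) X =
    tQ (xv x1 x2 x3 x4) (y0v x1 x2 x3 x4) (y0v x1 x2 x3 x4) := by
  unfold Ch
  rw [P0_eq, Y0_eq X h, h]

theorem Fh_eq (h : X 1 = xv x1 x2 x3 x4) (z : S) : Fh (c2 : Ix a2 → S) X z =
    tQ (xv x1 x2 x3 x4) (yv x1 x2 x3 x4 z) (yv x1 x2 x3 x4 z) := by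
  unfold Fh
  rw [P0_eq, yh_eq X h, h]

theorem Xz0 (h : X 1 = xv x1 x2 x3 x4) (z : S) :
    Xz (c2 : Ix a2 → S) X z 0 = yv x1 x2 x3 x4 z := by
  unfold Xz
  rw [Function.update_self, yh_eq X h]

theorem Xz1 (z : S) : Xz (c2 : Ix a2 → S) X z 1 = X 1 := by
  unfold Xz
  rw [Function.update_of_ne (by decide)]

/-- `xh` at the point over `x`. -/
def xw (x1 x2 x3 x4 z : S) : I 3 → S := xiv z (x1 - z * x2) (z * x1 - x3)
  (z * (x1 * x1 * x1 + 2 * x3 - x4) - x1 * x1 * x3 - 2 * x3 + x4 - x2 * x2)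

theorem xhz (h : X 1 = xv x1 x2 x3 x4) (z : S) :
    xh (c2 : Ix a2 → S) 1 (Xz c2 X z) = xw x1 x2 x3 x4 z :=
  xh_eq _ (Xz0 X h z)

theorem vhz (h : X 1 = xv x1 x2 x3 x4) (z : S) : vh (c2 : Ix a2 → S) 1 (Xz c2 X z) =
    vv z (x1 - z * x2) (z * x1 - x3)
      (z * (x1 * x1 * x1 + 2 * x3 - x4) - x1 * x1 * x3 - 2 * x3 + x4 - x2 * x2) :=
  vh_eq _ (Xz0 X h z)

theorem psh_eq (h : X 1 = xv x1 x2 x3 x4) (z : S) : psh (c2 : Ix a2 → S) 1 X z =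
    sP (xv x1 x2 x3 x4) (xw x1 x2 x3 x4 z) (yv x1 x2 x3 x4 z) := by
  unfold psh
  rw [P1_eq, xhz X h, Xz0 X h, h]

theorem kah_eq (h : X 1 = xv x1 x2 x3 x4) (z : S) : kah (c2 : Ix a2 → S) 1 X z =
    sP (xw x1 x2 x3 x4 z) (xw x1 x2 x3 x4 z) (yv x1 x2 x3 x4 z) := by
  unfold kah
  rw [P1_eq, xhz X h, Xz0 X h]

theorem De0 (ξ : I 3 → S) : De (c2 : Ix a2 → S) 0 1 X ξ = Q ξ (X 0) (X 0) := by
  unfold De
  rw [if_neg (by decide), add_zero]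
  exact M20 _ _

theorem De1 (ξ : I 3 → S) : De (c2 : Ix a2 → S) 1 1 X ξ = sP ξ (X 1) (X 0) := by
  unfold De
  rw [if_pos (show a2 1 = 1 by decide)]
  exact congrArg₂ (· + ·) (M21 _ _) (M21 _ _)

theorem De2 (ξ : I 3 → S) : De (c2 : Ix a2 → S) 2 1 X ξ = L1 ξ (X 0) := by
  unfold De
  rw [if_neg (by decide), add_zero]
  exact M22 _ _

theorem De3 (ξ : I 3 → S) : De (c2 : Ix a2 → S) 3 1 X ξ = L2 ξ (X 0) := by
  unfold De
  rw [if_neg (by decide), add_zero]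
  exact M23 _ _

/-- The vertical part. -/
def vpv (x1 e1 e2 e3 : S) : I 3 → S := ![0, 0, -e2, -e3, -(e1 + x1 * x1 * e3)]

theorem vp_eq (h : X 1 = xv x1 x2 x3 x4) (e : Fin 3 → S) : vp (c2 : Ix a2 → S) X e =
    vpv x1 (e 0) (e 1) (e 2) := by
  unfold vp
  rw [adj_eq X h]
  funext i
  fin_cases i
  · rfl
  · rfl
  · show -(Matrix.mulVec _ _ 0) = _
    simp [Matrix.mulVec, dotProduct, Fin.sum_univ_three, vpv]
  · show -(Matrix.mulVec _ _ 1) = _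
    simp [Matrix.mulVec, dotProduct, Fin.sum_univ_three, vpv]
  · show -(Matrix.mulVec _ _ 2) = _
    simp [Matrix.mulVec, dotProduct, Fin.sum_univ_three, vpv]

/-- The derivative of `Fh`. -/
def qv (x1 x2 x3 x4 : S) (ξ : I 3 → S) (z : S) : S :=
  2 * (Q ξ (yv x1 x2 x3 x4 z) (yv x1 x2 x3 x4 z) + tQ (xv x1 x2 x3 x4) (yv x1 x2 x3 x4 z)
    (vpv x1 (sP ξ (xv x1 x2 x3 x4) (yv x1 x2 x3 x4 z)) (L1 ξ (yv x1 x2 x3 x4 z))
      (L2 ξ (yv x1 x2 x3 x4 z))))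

theorem qh_eq (h : X 1 = xv x1 x2 x3 x4) (ξ : I 3 → S) (z : S) :
    qh (c2 : Ix a2 → S) 1 X ξ z = qv x1 x2 x3 x4 ξ z := by
  unfold qh
  rw [det_eq X h, one_mul, P0_eq, vp_eq X h, yh_eq X h, h]
  have h0 : De (c2 : Ix a2 → S) (a2 0) 1 (Xz c2 X z) ξ =
      Q ξ (yv x1 x2 x3 x4 z) (yv x1 x2 x3 x4 z) := by
    refine (De0 _ _).trans ?_
    rw [Xz0 X h]
  have h1 : De (c2 : Ix a2 → S) ((a2 0).succAbove 0) 1 (Xz c2 X z) ξ =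
      sP ξ (xv x1 x2 x3 x4) (yv x1 x2 x3 x4 z) := by
    refine (De1 _ _).trans ?_
    rw [Xz0 X h, Xz1, h]
  have h2 : De (c2 : Ix a2 → S) ((a2 0).succAbove 1) 1 (Xz c2 X z) ξ = L1 ξ (yv x1 x2 x3 x4 z) := by
    refine (De2 _ _).trans ?_
    rw [Xz0 X h]
  have h3 : De (c2 : Ix a2 → S) ((a2 0).succAbove 2) 1 (Xz c2 X z) ξ = L2 ξ (yv x1 x2 x3 x4 z) := by
    refine (De3 _ _).trans ?_
    rw [Xz0 X h]
  rw [h0, h1, h2, h3, qv]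

theorem th_eq (h : X 1 = xv x1 x2 x3 x4) (z : S) : th (c2 : Ix a2 → S) 1 X z =
    tQ (xv x1 x2 x3 x4) (yv x1 x2 x3 x4 z) ![0, 0, 0, 0, -1] := by
  unfold th
  rw [P0_eq, vp_eq X h, yh_eq X h, h, if_neg (show ¬(a2 1 = a2 0) by decide), zero_add,
    if_pos (show (a2 0).succAbove 0 = a2 1 by decide),
    if_neg (show ¬((a2 0).succAbove 1 = a2 1) by decide),
    if_neg (show ¬((a2 0).succAbove 2 = a2 1) by decide)]
  simp [vpv]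

end Pool.Agent.Helper76.N4.E2
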