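import Mathlib
import Pool.Agent.Helper76.N4.E2Ev

/-!
# The example for type 2: the numbers and the equations
-/

set_option linter.unusedSimpArgs false
set_option linter.unusedTactic false
set_option linter.unreachableTactic false

namespace Pool.Agent.Helper76.N4.E2

open Pool.Agent.Helper64.HK Pool.Agent.Helper24.HK
open Pool.Agent.Helper16.N4
open Pool.Agent.Helper28.HN (I aff)

/-- The choices. -/
def s2 : Sel4 1 3 where
  S := fun i => (0, i)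
  hS := fun i j h => (Prod.mk.inj h).2
  f := 0
  y := 3
  j := (0, 3)
  m' := (0, 0)
  l := (0, 1)
  hjm := by decide
  hml := by decide
  hlj := by decide

/-- The roots. -/
def z2 : Fin 4 → ℚ := ![-2, -1, 2, 1]

/-- The branch points. -/
def t2 : Fin 4 → ℚ := ![-2, 2, -1, 1]

/-- The double roots. -/
def w2 : Fin 4 → ℚ := ![-2, 0, 3, 1]

/-- The example. -/
def x2 : Un4 1 3 → ℚ
  | .u _ => 0
  | .z q => z2 q.2
  | .d _ => 0
  | .t r => t2 r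
  | .w r => w2 r

section

variable {S : Type*} [CommRing S] (x : Un4 1 3 → S)

theorem pt_eq : pt (rd s2 x) 1 = xv (x (.u (0, 0))) (x (.u (0, 1))) (x (.u (0, 2))) (x (.u (0, 3))) := by
  funext i
  fin_cases i <;> rfl

theorem pl_eq (t : S) : pl s2 x t 1 = xv (x (.u (0, 0)) + t) (x (.u (0, 1)) + t * x (.d 0))
    (x (.u (0, 2)) + t * x (.d 1)) (x (.u (0, 3)) + t * x (.d 2)) := by
  funext i
  fin_cases i
  · rfl
  · show x (.u (0, 0)) + (if (0 : Fin 1) = 0 then t * 1 else 0) = x (.u (0, 0)) + t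
    rw [if_pos rfl, mul_one]
  · rfl
  · rfl
  · rfl

theorem dr_eq : dr x = ![0, 1, x (.d 0), x (.d 1), x (.d 2)] := by
  funext i
  fin_cases i <;> rfl

theorem eu0 : Eqn4 (c2 : Ix a2 → S) s2 x (.u (0, 0)) = Ah c2 (pt (rd s2 x)) := rfl

theorem eu1 : Eqn4 (c2 : Ix a2 → S) s2 x (.u (0, 1)) = Fh c2 (pt (rd s2 x)) 3 := by
  rw [show (3 : S) = ((s2.y : ℤ) : S) from (Int.cast_ofNat 3).symm]
  rfl

theorem eu2 : Eqn4 (c2 : Ix a2 → S) s2 x (.u (0, 2)) = Fh c2 (pt (rd s2 x)) (x (.z (0, 3))) := rfl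

theorem eu3 : Eqn4 (c2 : Ix a2 → S) s2 x (.u (0, 3)) = qh c2 1 (pt (rd s2 x))
    (xh c2 1 (Xz c2 (pt (rd s2 x)) (x (.z (0, 0))))) (x (.z (0, 3))) := rfl

theorem ez (i : Fin 4) : Eqn4 (c2 : Ix a2 → S) s2 x (.z (0, i)) =
    psh c2 1 (pt (rd s2 x)) (x (.z (0, i))) := rfl

theorem ed (i : Fin 3) : Eqn4 (c2 : Ix a2 → S) s2 x (.d i) =
    qh c2 1 (pl s2 x (x (.t i.succ))) (dr x) (x (.w i.succ)) := rfl

theorem et (r : Fin 4) : Eqn4 (c2 : Ix a2 → S) s2 x (.t r) =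
    Ah c2 (pl s2 x (x (.t r))) * x (.w r) + Bh c2 (pl s2 x (x (.t r))) := rfl

theorem ew (r : Fin 4) : Eqn4 (c2 : Ix a2 → S) s2 x (.w r) =
    Bh c2 (pl s2 x (x (.t r))) * x (.w r) + Ch c2 (pl s2 x (x (.t r))) := rfl

end

theorem ex_eqn (i : Un4 1 3) : Eqn4 (c2 : Ix a2 → ℚ) s2 x2 i = 0 := by
  rcases i with ⟨j, i⟩ | ⟨j, i⟩ | i | r | r
  · obtain rfl : j = 0 := Subsingleton.elim _ _
    fin_cases i
    · refine (eu0 _).trans ?_
      rw [Ah_eq _ (pt_eq x2)]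
      simp [tQ, Q, xv, y1v, x2]
    · refine (eu1 _).trans ?_
      rw [Fh_eq _ (pt_eq x2)]
      simp [tQ, Q, xv, yv, x2]
    · refine (eu2 _).trans ?_
      rw [Fh_eq _ (pt_eq x2)]
      simp [tQ, Q, xv, yv, x2]
    · refine (eu3 _).trans ?_
      rw [xhz _ (pt_eq x2), qh_eq _ (pt_eq x2)]
      simp [qv, sP, P, tQ, Q, xv, yv, x2, vpv, xw, xiv, nv, av, L1, L2, z2]
      norm_num
  · obtain rfl : j = 0 := Subsingleton.elim _ _
    rw [ez, psh_eq _ (pt_eq x2)]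
    fin_cases i <;> simp [sP, P, xv, yv, x2, xw, xiv, nv, av, z2] <;> norm_num
  · rw [ed, qh_eq _ (pl_eq x2 _), dr_eq]
    fin_cases i <;> simp [qv, sP, P, tQ, Q, xv, yv, x2, vpv, L1, L2, t2, w2] <;> norm_num
  · rw [et, Ah_eq _ (pl_eq x2 _), Bh_eq _ (pl_eq x2 _)]
    fin_cases r <;> simp [tQ, Q, xv, y0v, y1v, x2, t2, w2] <;> norm_num
  · rw [ew, Ch_eq _ (pl_eq x2 _), Bh_eq _ (pl_eq x2 _)]
    fin_cases r <;> simp [tQ, Q, xv, y0v, y1v, x2, t2, w2] <;> norm_num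

end Pool.Agent.Helper76.N4.E2
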