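import Mathlib
import Pool.Agent.Helper76.N4.E2Ex

/-!
# The example for type 2: the inequalities
-/

set_option linter.unusedSimpArgs false
set_option linter.unusedTactic false
set_option linter.unreachableTactic false

namespace Pool.Agent.Helper76.N4.E2

open Pool.Agent.Helper64.HK Pool.Agent.Helper24.HK
open Pool.Agent.Helper16.N4
open Pool.Agent.Helper28.HN (I aff)

theorem rd_none : rd s2 x2 (.inr none) = 3 := by
  show ((3 : ℤ) : ℚ) = 3
  norm_num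

theorem rd_some (i : Fin 4) : rd s2 x2 (.inr (some (0, i))) = z2 i := rfl

theorem dz (b b' : Lt 1 3) (h : b ≠ b') : rd s2 x2 (.inr b) - rd s2 x2 (.inr b') ≠ 0 := by
  have h1 : ∀ b : Lt 1 3, b = none ∨ ∃ i : Fin 4, b = some (0, i) := by
    rintro (_ | ⟨j, i⟩)
    · exact Or.inl rfl
    · exact Or.inr ⟨i, by rw [Subsingleton.elim j 0]⟩
  rcases h1 b with rfl | ⟨i, rfl⟩ <;> rcases h1 b' with rfl | ⟨i', rfl⟩
  · exact absurd rfl h
  · rw [rd_none, rd_some]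
    fin_cases i' <;> norm_num [z2]
  · rw [rd_none, rd_some]
    fin_cases i <;> norm_num [z2]
  · rw [rd_some, rd_some]
    fin_cases i <;> fin_cases i' <;> first | exact absurd rfl h | norm_num [z2]

theorem pt_x2 : pt (rd s2 x2) 1 = xv 0 0 0 0 := pt_eq x2

theorem x2z (i : Fin 4) : x2 (.z (0, i)) = z2 i := rfl

theorem pq (i : Fin 4) (b : Lt 1 3) (h : ¬(b = some (0, i) ∨ ((0, i) = s2.m' ∧ b = some s2.j))) :
    qh (c2 : Ix a2 → ℚ) 1 (pt (rd s2 x2)) (xq c2 s2 x2 (0, i)) (rd s2 x2 (.inr b)) ≠ 0 := by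
  have h0 : xq (c2 : Ix a2 → ℚ) s2 x2 (0, i) = xh c2 1 (Xz c2 (pt (rd s2 x2)) (x2 (.z (0, i)))) := rfl
  have h1 : ∀ b : Lt 1 3, b = none ∨ ∃ i : Fin 4, b = some (0, i) := by
    rintro (_ | ⟨j, i⟩)
    · exact Or.inl rfl
    · exact Or.inr ⟨i, by rw [Subsingleton.elim j 0]⟩
  rw [h0, xhz _ pt_x2, qh_eq _ pt_x2, x2z]
  rcases h1 b with rfl | ⟨i', rfl⟩
  · rw [rd_none]
    fin_cases i <;> simp [qv, sP, P, tQ, Q, xv, yv, vpv, xw, xiv, nv, av, L1, L2, z2] <;> norm_num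
  · rw [rd_some]
    fin_cases i <;> fin_cases i' <;> first
      | exact absurd (Or.inl rfl) h
      | exact absurd (Or.inr ⟨rfl, rfl⟩) h
      | (simp [qv, sP, P, tQ, Q, xv, yv, vpv, xw, xiv, nv, av, L1, L2, z2]; norm_num; done)
      | (simp [qv, sP, P, tQ, Q, xv, yv, vpv, xw, xiv, nv, av, L1, L2, z2]; done)

theorem psd (i : Fin 4) : (psP (c2 : Ix a2 → ℚ) 1 (pt (rd s2 x2))).derivative.eval (z2 i) ≠ 0 := by
  have h1 : psP (c2 : Ix a2 → ℚ) 1 (pt (rd s2 x2)) =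
      psh (c2 : Ix a2 → Polynomial ℚ) 1 (fun i l => Polynomial.C (pt (rd s2 x2) i l))
        Polynomial.X := by
    unfold psP c2
    rw [map_cM (a := a2) (Polynomial.C : ℚ →+* Polynomial ℚ) M2]
  have h2 : (fun i l => Polynomial.C (pt (rd s2 x2) i l)) 1 = xv (0 : Polynomial ℚ) 0 0 0 := by
    funext l
    show Polynomial.C (pt (rd s2 x2) 1 l) = _
    rw [pt_x2]
    fin_cases l <;> simp [xv]
  rw [h1, psh_eq _ h2]
  have h3 : sP (xv (0 : Polynomial ℚ) 0 0 0) (xw 0 0 0 0 Polynomial.X)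
      (yv 0 0 0 0 Polynomial.X) =
      -Polynomial.X ^ 5 + Polynomial.C 5 * Polynomial.X ^ 3 - Polynomial.C 4 * Polynomial.X := by
    have h5 : (Polynomial.C 5 : Polynomial ℚ) = 5 := rfl
    have h4 : (Polynomial.C 4 : Polynomial ℚ) = 4 := rfl
    rw [h5, h4]
    simp [sP, P, xv, yv, xw, xiv, nv, av]
    ring
  rw [h3]
  fin_cases i <;> simp [z2] <;> norm_num

theorem ex_pp : Pp4 (c2 : Ix a2 → ℚ) s2 x2 ≠ 0 := by
  have hs : ∀ q : Fin 1 × Fin (3 + 1), ∃ i : Fin 4, q = (0, i) := fun q =>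
    ⟨q.2, Prod.ext (Subsingleton.elim _ _) rfl⟩
  unfold Pp4 Pa4 Pb4
  refine mul_ne_zero (mul_ne_zero (mul_ne_zero (mul_ne_zero (mul_ne_zero (mul_ne_zero (mul_ne_zero
    (mul_ne_zero (mul_ne_zero ?_ ?_) ?_) ?_) ?_) ?_) ?_) ?_) ?_) (mul_ne_zero (mul_ne_zero
    (mul_ne_zero (mul_ne_zero ?_ ?_) ?_) ?_) ?_)
  · rw [det_eq _ pt_x2]
    norm_num
  · refine Finset.prod_ne_zero_iff.2 fun b _ => Finset.prod_ne_zero_iff.2 fun b' _ => ?_
    split_ifs with h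
    · exact one_ne_zero
    · exact dz b b' h
  · refine Finset.prod_ne_zero_iff.2 fun q _ => ?_
    obtain ⟨i, rfl⟩ := hs q
    refine ne_of_eq_of_ne (detN_eq _ (Xz0 _ pt_x2 _)) ?_
    rw [x2z]
    fin_cases i <;> simp [z2, nv, av] <;> norm_num
  · refine Finset.prod_ne_zero_iff.2 fun q _ => ?_
    obtain ⟨i, rfl⟩ := hs q
    refine ne_of_eq_of_ne (kah_eq _ pt_x2 _) ?_
    rw [x2z]
    fin_cases i <;> simp [sP, P, xv, yv, xw, xiv, nv, av, z2] <;> norm_num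
  · refine Finset.prod_ne_zero_iff.2 fun q _ => ?_
    obtain ⟨i, rfl⟩ := hs q
    refine ne_of_eq_of_ne (th_eq _ pt_x2 _) ?_
    rw [x2z]
    fin_cases i <;> simp [tQ, Q, xv, yv, z2]
  · refine Finset.prod_ne_zero_iff.2 fun q _ => ?_
    obtain ⟨i, rfl⟩ := hs q
    exact psd i
  · refine Finset.prod_ne_zero_iff.2 fun q _ => Finset.prod_ne_zero_iff.2 fun b _ => ?_
    obtain ⟨i, rfl⟩ := hs q
    split_ifs with h
    · exact one_ne_zero
    · exact pq i b h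
  · refine Finset.prod_ne_zero_iff.2 fun l _ => ?_
    obtain rfl : l = 0 := Subsingleton.elim _ _
    have h1 : Vm (c2 : Ix a2 → ℚ) (rd s2 x2) 0 = Matrix.of fun b : Fin 4 => vv (z2 b) 0 0 0 := by
      ext b i
      show vh (c2 : Ix a2 → ℚ) 1 (Xz c2 (pt (rd s2 x2)) (z2 b)) i = _
      rw [vhz _ pt_x2]
      simp
    rw [h1]
    simp [Matrix.det_succ_row_zero, Fin.sum_univ_succ, Fin.succAbove, vv, z2, nv, av]
    norm_num
  · have h1 : qh (c2 : Ix a2 → ℚ) s2.f.succ (pt (rd s2 x2)) (dr x2) (x2 (.z s2.j)) =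
      qv 0 0 0 0 (dr x2) (z2 3) := qh_eq _ pt_x2 _ _
    rw [h1, dr_eq]
    simp [qv, sP, P, tQ, Q, xv, yv, vpv, L1, L2, z2, x2] <;> norm_num
  · refine Finset.prod_ne_zero_iff.2 fun r _ => ?_
    rw [det_eq _ (pl_eq x2 _)]
    norm_num
  · refine Finset.prod_ne_zero_iff.2 fun r _ => Finset.prod_ne_zero_iff.2 fun r' _ => ?_
    show (if r = r' then 1 else t2 r - t2 r') ≠ 0
    fin_cases r <;> fin_cases r' <;> simp [t2] <;> norm_num
  · refine Finset.prod_ne_zero_iff.2 fun r _ => ?_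
    show t2 r ≠ 0
    fin_cases r <;> simp [t2]
  · rw [Ah_eq _ (pl_eq x2 _)]
    simp [tQ, Q, xv, y1v, x2, t2]
  · have h1 : qh (c2 : Ix a2 → ℚ) s2.f.succ (pl s2 x2 (x2 (.t 0))) (dr x2) (x2 (.w 0)) = _ :=
      qh_eq _ (pl_eq x2 _) _ _
    rw [h1, dr_eq]
    simp [qv, sP, P, tQ, Q, xv, yv, x2, vpv, L1, L2, t2, w2] <;> norm_num

end Pool.Agent.Helper76.N4.E2
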