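import Mathlib
import Pool.Agent.Helper76.N4.E2Pp

/-!
# The example for type 2: the Jacobian
-/

set_option linter.unusedSimpArgs false

namespace Pool.Agent.Helper76.N4.E2

open Pool.Agent.Helper64.HK Pool.Agent.Helper24.HK
open Pool.Agent.Helper16.N4
open Pool.Agent.Helper28.HN (I aff)
open Pool.Agent.Helper60.HN (dl dl_fst dl_snd dl_ext dl_add dl_mul dl_sub dl_eq_zero dl_cast dl_one
  dl_pow aeval_dl)

variable (v : Un4 1 3 → ℚ)

/-- The first order point. -/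
noncomputable def xd : Un4 1 3 → DualNumber ℚ := fun j => dl (x2 j) (v j)

theorem xdu (i : Fin 4) : xd v (.u (0, i)) = dl 0 (v (.u (0, i))) := rfl

theorem xdz (i : Fin 4) : xd v (.z (0, i)) = dl (z2 i) (v (.z (0, i))) := rfl

theorem xdd (i : Fin 3) : xd v (.d i) = dl 0 (v (.d i)) := rfl

theorem xdt (i : Fin 4) : xd v (.t i) = dl (t2 i) (v (.t i)) := rfl

theorem xdw (i : Fin 4) : xd v (.w i) = dl (w2 i) (v (.w i)) := rfl

theorem snd0 {a b : ℚ} (h : dl a b = dl 0 0) : b = 0 := by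
  have h1 := congrArg TrivSqZeroExt.snd h
  rwa [dl_snd, dl_snd] at h1

theorem h_u0 (h : Eqn4 (c2 : Ix a2 → DualNumber ℚ) s2 (xd v) (.u (0, 0)) = 0) :
    (-2) * v (.u (0, 2)) = 0 := by
  have h1 := (eu0 _).symm.trans h
  rw [Ah_eq _ (pt_eq _)] at h1
  simp [tQ, Q, xv, y1v, xdu, xdz, xdd, xdt, xdw, z2, t2, w2, dl_zero, dl_one, dl_two, dl_ofNat, dl_mul, dl_add, dl_sub, dl_neg] at h1
  linear_combination snd0 h1

theorem h_u1 (h : Eqn4 (c2 : Ix a2 → DualNumber ℚ) s2 (xd v) (.u (0, 1)) = 0) :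
    8 * v (.u (0, 0)) + (-68) * v (.u (0, 2)) + 26 * v (.u (0, 3)) = 0 := by
  have h1 := (eu1 _).symm.trans h
  rw [Fh_eq _ (pt_eq _)] at h1
  simp [tQ, Q, xv, yv, xdu, xdz, xdd, xdt, xdw, z2, t2, w2, dl_zero, dl_one, dl_two, dl_ofNat, dl_mul, dl_add, dl_sub, dl_neg] at h1
  linear_combination snd0 h1

theorem h_u2 (h : Eqn4 (c2 : Ix a2 → DualNumber ℚ) s2 (xd v) (.u (0, 2)) = 0) :
    8 * v (.u (0, 0)) + 2 * v (.u (0, 3)) = 0 := by
  have h1 := (eu2 _).symm.trans h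
  rw [Fh_eq _ (pt_eq _)] at h1
  simp [tQ, Q, xv, yv, xdu, xdz, xdd, xdt, xdw, z2, t2, w2, dl_zero, dl_one, dl_two, dl_ofNat, dl_mul, dl_add, dl_sub, dl_neg] at h1
  linear_combination snd0 h1

theorem h_u3 (h : Eqn4 (c2 : Ix a2 → DualNumber ℚ) s2 (xd v) (.u (0, 3)) = 0) :
    72 * v (.u (0, 0)) + 24 * v (.u (0, 1)) + (-120) * v (.u (0, 2)) + 72 * v (.u (0, 3)) +
      24 * v (.z (0, 0)) + 24 * v (.z (0, 3)) = 0 := by
  have h1 := (eu3 _).symm.trans h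
  rw [xhz _ (pt_eq _), qh_eq _ (pt_eq _)] at h1
  simp [qv, sP, P, tQ, Q, xv, yv, vpv, xw, xiv, nv, av, L1, L2, xdu, xdz, xdd, xdt, xdw, z2, t2, w2, dl_zero, dl_one, dl_two, dl_ofNat, dl_mul, dl_add, dl_sub, dl_neg] at h1
  linear_combination snd0 h1

theorem h_z0 (h : Eqn4 (c2 : Ix a2 → DualNumber ℚ) s2 (xd v) (.z (0, 0)) = 0) :
    (-120) * v (.u (0, 0)) + (-50) * v (.u (0, 1)) + 168 * v (.u (0, 2)) +
      (-108) * v (.u (0, 3)) + (-24) * v (.z (0, 0)) = 0 := by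
  have h1 := (ez _ 0).symm.trans h
  rw [psh_eq _ (pt_eq _)] at h1
  simp [sP, P, xv, yv, xw, xiv, nv, av, xdu, xdz, xdd, xdt, xdw, z2, t2, w2, dl_zero, dl_one, dl_two, dl_ofNat, dl_mul, dl_add, dl_sub, dl_neg] at h1
  linear_combination snd0 h1

theorem h_z1 (h : Eqn4 (c2 : Ix a2 → DualNumber ℚ) s2 (xd v) (.z (0, 1)) = 0) :
    (-20) * v (.u (0, 0)) + (-10) * v (.u (0, 1)) + 20 * v (.u (0, 2)) +
      (-16) * v (.u (0, 3)) + 6 * v (.z (0, 1)) = 0 := by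
  have h1 := (ez _ 1).symm.trans h
  rw [psh_eq _ (pt_eq _)] at h1
  simp [sP, P, xv, yv, xw, xiv, nv, av, xdu, xdz, xdd, xdt, xdw, z2, t2, w2, dl_zero, dl_one, dl_two, dl_ofNat, dl_mul, dl_add, dl_sub, dl_neg] at h1
  linear_combination snd0 h1

theorem h_z2 (h : Eqn4 (c2 : Ix a2 → DualNumber ℚ) s2 (xd v) (.z (0, 2)) = 0) :
    (-8) * v (.u (0, 0)) + 14 * v (.u (0, 1)) + 8 * v (.u (0, 2)) + (-4) * v (.u (0, 3)) +
      (-24) * v (.z (0, 2)) = 0 := by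
  have h1 := (ez _ 2).symm.trans h
  rw [psh_eq _ (pt_eq _)] at h1
  simp [sP, P, xv, yv, xw, xiv, nv, av, xdu, xdz, xdd, xdt, xdw, z2, t2, w2, dl_zero, dl_one, dl_two, dl_ofNat, dl_mul, dl_add, dl_sub, dl_neg] at h1
  linear_combination snd0 h1

theorem h_z3 (h : Eqn4 (c2 : Ix a2 → DualNumber ℚ) s2 (xd v) (.z (0, 3)) = 0) :
    (-2) * v (.u (0, 1)) + 6 * v (.z (0, 3)) = 0 := by
  have h1 := (ez _ 3).symm.trans h
  rw [psh_eq _ (pt_eq _)] at h1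
  simp [sP, P, xv, yv, xw, xiv, nv, av, xdu, xdz, xdd, xdt, xdw, z2, t2, w2, dl_zero, dl_one, dl_two, dl_ofNat, dl_mul, dl_add, dl_sub, dl_neg] at h1
  linear_combination snd0 h1

theorem h_d0 (h : Eqn4 (c2 : Ix a2 → DualNumber ℚ) s2 (xd v) (.d 0) = 0) :
    8 * v (.u (0, 0)) + (-64) * v (.u (0, 2)) + 12 * v (.u (0, 3)) + (-116) * v (.d 1) +
      22 * v (.d 2) + 8 * v (.t 1) + 80 * v (.w 1) = 0 := by
  have h1 := (ed _ 0).symm.trans h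
  rw [qh_eq _ (pl_eq _ _), dr_eq] at h1
  simp [qv, sP, P, tQ, Q, xv, yv, vpv, L1, L2, xdu, xdz, xdd, xdt, xdw, z2, t2, w2, dl_zero, dl_one, dl_two, dl_ofNat, dl_mul, dl_add, dl_sub, dl_neg] at h1
  linear_combination snd0 h1

theorem h_d1 (h : Eqn4 (c2 : Ix a2 → DualNumber ℚ) s2 (xd v) (.d 1) = 0) :
    (-148) * v (.u (0, 0)) + 192 * v (.u (0, 1)) + (-28) * v (.u (0, 2)) +
      24 * v (.u (0, 3)) + (-264) * v (.d 0) + (-32) * v (.d 1) + (-2) * v (.d 2) +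
      (-148) * v (.t 2) + (-4) * v (.w 2) = 0 := by
  have h1 := (ed _ 1).symm.trans h
  rw [qh_eq _ (pl_eq _ _), dr_eq] at h1
  simp [qv, sP, P, tQ, Q, xv, yv, vpv, L1, L2, xdu, xdz, xdd, xdt, xdw, z2, t2, w2, dl_zero, dl_one, dl_two, dl_ofNat, dl_mul, dl_add, dl_sub, dl_neg] at h1
  linear_combination snd0 h1

theorem h_d2 (h : Eqn4 (c2 : Ix a2 → DualNumber ℚ) s2 (xd v) (.d 2) = 0) :
    52 * v (.u (0, 0)) + (-16) * v (.u (0, 1)) + (-12) * v (.u (0, 2)) + (-16) * v (.d 0) +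
      (-12) * v (.d 1) + 2 * v (.d 2) + 52 * v (.t 3) + 20 * v (.w 3) = 0 := by
  have h1 := (ed _ 2).symm.trans h
  rw [qh_eq _ (pl_eq _ _), dr_eq] at h1
  simp [qv, sP, P, tQ, Q, xv, yv, vpv, L1, L2, xdu, xdz, xdd, xdt, xdw, z2, t2, w2, dl_zero, dl_one, dl_two, dl_ofNat, dl_mul, dl_add, dl_sub, dl_neg] at h1
  linear_combination snd0 h1

theorem h_t0 (h : Eqn4 (c2 : Ix a2 → DualNumber ℚ) s2 (xd v) (.t 0) = 0) :
    40 * v (.u (0, 0)) + 112 * v (.u (0, 1)) + (-5) * v (.u (0, 2)) + (-6) * v (.u (0, 3)) +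
      (-224) * v (.d 0) + 10 * v (.d 1) + 12 * v (.d 2) + 40 * v (.t 0) + (-16) * v (.w 0) = 0 := by
  have h1 := (et _ 0).symm.trans h
  rw [Ah_eq _ (pl_eq _ _), Bh_eq _ (pl_eq _ _)] at h1
  simp [tQ, Q, xv, y0v, y1v, xdu, xdz, xdd, xdt, xdw, z2, t2, w2, dl_zero, dl_one, dl_two, dl_ofNat, dl_mul, dl_add, dl_sub, dl_neg] at h1
  linear_combination snd0 h1

theorem h_t1 (h : Eqn4 (c2 : Ix a2 → DualNumber ℚ) s2 (xd v) (.t 1) = 0) :
    40 * v (.u (0, 0)) + (-65) * v (.u (0, 2)) + 10 * v (.u (0, 3)) + (-130) * v (.d 1) +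
      20 * v (.d 2) + 40 * v (.t 1) + 112 * v (.w 1) = 0 := by
  have h1 := (et _ 1).symm.trans h
  rw [Ah_eq _ (pl_eq _ _), Bh_eq _ (pl_eq _ _)] at h1
  simp [tQ, Q, xv, y0v, y1v, xdu, xdz, xdd, xdt, xdw, z2, t2, w2, dl_zero, dl_one, dl_two, dl_ofNat, dl_mul, dl_add, dl_sub, dl_neg] at h1
  linear_combination snd0 h1

theorem h_t2 (h : Eqn4 (c2 : Ix a2 → DualNumber ℚ) s2 (xd v) (.t 2) = 0) :
    (-2) * v (.u (0, 0)) + (-18) * v (.u (0, 1)) + (-23) * v (.u (0, 2)) + 7 * v (.u (0, 3)) +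
      18 * v (.d 0) + 23 * v (.d 1) + (-7) * v (.d 2) + (-2) * v (.t 2) + (-2) * v (.w 2) = 0 := by
  have h1 := (et _ 2).symm.trans h
  rw [Ah_eq _ (pl_eq _ _), Bh_eq _ (pl_eq _ _)] at h1
  simp [tQ, Q, xv, y0v, y1v, xdu, xdz, xdd, xdt, xdw, z2, t2, w2, dl_zero, dl_one, dl_two, dl_ofNat, dl_mul, dl_add, dl_sub, dl_neg] at h1
  linear_combination snd0 h1

theorem h_t3 (h : Eqn4 (c2 : Ix a2 → DualNumber ℚ) s2 (xd v) (.t 3) = 0) :
    10 * v (.u (0, 0)) + (-2) * v (.u (0, 1)) + (-11) * v (.u (0, 2)) + 3 * v (.u (0, 3)) +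
      (-2) * v (.d 0) + (-11) * v (.d 1) + 3 * v (.d 2) + 10 * v (.t 3) + 2 * v (.w 3) = 0 := by
  have h1 := (et _ 3).symm.trans h
  rw [Ah_eq _ (pl_eq _ _), Bh_eq _ (pl_eq _ _)] at h1
  simp [tQ, Q, xv, y0v, y1v, xdu, xdz, xdd, xdt, xdw, z2, t2, w2, dl_zero, dl_one, dl_two, dl_ofNat, dl_mul, dl_add, dl_sub, dl_neg] at h1
  linear_combination snd0 h1

theorem h_w0 (h : Eqn4 (c2 : Ix a2 → DualNumber ℚ) s2 (xd v) (.w 0) = 0) :
    (-208) * v (.u (0, 0)) + 32 * v (.u (0, 1)) + (-34) * v (.u (0, 2)) + 26 * v (.u (0, 3)) +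
      (-64) * v (.d 0) + 68 * v (.d 1) + (-52) * v (.d 2) + (-208) * v (.t 0) +
      (-32) * v (.w 0) = 0 := by
  have h1 := (ew _ 0).symm.trans h
  rw [Bh_eq _ (pl_eq _ _), Ch_eq _ (pl_eq _ _)] at h1
  simp [tQ, Q, xv, y0v, y1v, xdu, xdz, xdd, xdt, xdw, z2, t2, w2, dl_zero, dl_one, dl_two, dl_ofNat, dl_mul, dl_add, dl_sub, dl_neg] at h1
  linear_combination snd0 h1

theorem h_w1 (h : Eqn4 (c2 : Ix a2 → DualNumber ℚ) s2 (xd v) (.w 1) = 0) :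
    12 * v (.u (0, 2)) + (-2) * v (.u (0, 3)) + 24 * v (.d 1) + (-4) * v (.d 2) = 0 := by
  have h1 := (ew _ 1).symm.trans h
  rw [Bh_eq _ (pl_eq _ _), Ch_eq _ (pl_eq _ _)] at h1
  simp [tQ, Q, xv, y0v, y1v, xdu, xdz, xdd, xdt, xdw, z2, t2, w2, dl_zero, dl_one, dl_two, dl_ofNat, dl_mul, dl_add, dl_sub, dl_neg] at h1
  linear_combination snd0 h1

theorem h_w2 (h : Eqn4 (c2 : Ix a2 → DualNumber ℚ) s2 (xd v) (.w 2) = 0) :
    6 * v (.u (0, 0)) + (-18) * v (.u (0, 1)) + 9 * v (.u (0, 2)) + 1 * v (.u (0, 3)) +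
      18 * v (.d 0) + (-9) * v (.d 1) + (-1) * v (.d 2) + 6 * v (.t 2) + 6 * v (.w 2) = 0 := by
  have h1 := (ew _ 2).symm.trans h
  rw [Bh_eq _ (pl_eq _ _), Ch_eq _ (pl_eq _ _)] at h1
  simp [tQ, Q, xv, y0v, y1v, xdu, xdz, xdd, xdt, xdw, z2, t2, w2, dl_zero, dl_one, dl_two, dl_ofNat, dl_mul, dl_add, dl_sub, dl_neg] at h1
  linear_combination snd0 h1

theorem h_w3 (h : Eqn4 (c2 : Ix a2 → DualNumber ℚ) s2 (xd v) (.w 3) = 0) :
    (-10) * v (.u (0, 0)) + 2 * v (.u (0, 1)) + 11 * v (.u (0, 2)) + (-1) * v (.u (0, 3)) +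
      2 * v (.d 0) + 11 * v (.d 1) + (-1) * v (.d 2) + (-10) * v (.t 3) + (-2) * v (.w 3) = 0 := by
  have h1 := (ew _ 3).symm.trans h
  rw [Bh_eq _ (pl_eq _ _), Ch_eq _ (pl_eq _ _)] at h1
  simp [tQ, Q, xv, y0v, y1v, xdu, xdz, xdd, xdt, xdw, z2, t2, w2, dl_zero, dl_one, dl_two, dl_ofNat, dl_mul, dl_add, dl_sub, dl_neg] at h1
  linear_combination snd0 h1

theorem v_zero (h : ∀ i, Eqn4 (c2 : Ix a2 → DualNumber ℚ) s2 (xd v) i = 0) : v = 0 := by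
  have h_u0' := h_u0 v (h _)
  have h_u1' := h_u1 v (h _)
  have h_u2' := h_u2 v (h _)
  have h_u3' := h_u3 v (h _)
  have h_z0' := h_z0 v (h _)
  have h_z1' := h_z1 v (h _)
  have h_z2' := h_z2 v (h _)
  have h_z3' := h_z3 v (h _)
  have h_d0' := h_d0 v (h _)
  have h_d1' := h_d1 v (h _)
  have h_d2' := h_d2 v (h _)
  have h_t0' := h_t0 v (h _)
  have h_t1' := h_t1 v (h _)
  have h_t2' := h_t2 v (h _)
  have h_t3' := h_t3 v (h _)
  have h_w0' := h_w0 v (h _)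
  have h_w1' := h_w1 v (h _)
  have h_w2' := h_w2 v (h _)
  have h_w3' := h_w3 v (h _)
  have g_u0 : v (.u (0, 0)) = 0 := by
    linear_combination (17 / 48) * h_u0' + (-1 / 96) * h_u1' + (13 / 96) * h_u2'
  have g_u1 : v (.u (0, 1)) = 0 := by
    linear_combination (5 / 9) * h_u0' + (-1 / 18) * h_u1' + (-5 / 18) * h_u2' + (-1 / 18) * h_u3' +
      (-1 / 18) * h_z0' + (2 / 9) * h_z3'
  have g_u2 : v (.u (0, 2)) = 0 := by
    linear_combination (-1 / 2) * h_u0'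
  have g_u3 : v (.u (0, 3)) = 0 := by
    linear_combination (-17 / 12) * h_u0' + (1 / 24) * h_u1' + (-1 / 24) * h_u2'
  have g_z0 : v (.z (0, 0)) = 0 := by
    linear_combination (-23 / 432) * h_u0' + (-17 / 864) * h_u1' + (77 / 864) * h_u2' + (25 / 216) * h_u3' +
      (2 / 27) * h_z0' + (-25 / 54) * h_z3'
  have g_z1 : v (.z (0, 1)) = 0 := by
    linear_combination (-1 / 216) * h_u0' + (-7 / 432) * h_u1' + (-53 / 432) * h_u2' + (-5 / 54) * h_u3' +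
      (-5 / 54) * h_z0' + (1 / 6) * h_z1' + (10 / 27) * h_z3'
  have g_z2 : v (.z (0, 2)) = 0 := by
    linear_combination (119 / 432) * h_u0' + (-31 / 864) * h_u1' + (-173 / 864) * h_u2' + (-7 / 216) * h_u3' +
      (-7 / 216) * h_z0' + (-1 / 24) * h_z2' + (7 / 54) * h_z3'
  have g_z3 : v (.z (0, 3)) = 0 := by
    linear_combination (5 / 27) * h_u0' + (-1 / 54) * h_u1' + (-5 / 54) * h_u2' + (-1 / 54) * h_u3' +
      (-1 / 54) * h_z0' + (13 / 54) * h_z3'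
  have g_d0 : v (.d 0) = 0 := by
    linear_combination (67 / 96) * h_u0' + (-5 / 64) * h_u1' + (-49 / 192) * h_u2' + (-1 / 18) * h_u3' +
      (-1 / 18) * h_z0' + (2 / 9) * h_z3' + (1 / 24) * h_t2' + (1 / 12) * h_t3' +
      (-5 / 144) * h_w1' + (1 / 72) * h_w2' + (1 / 12) * h_w3'
  have g_d1 : v (.d 1) = 0 := by
    linear_combination (53 / 144) * h_u0' + (-1 / 288) * h_u1' + (1 / 288) * h_u2' + (1 / 12) * h_t3' +
      (1 / 24) * h_w1' + (1 / 12) * h_w3'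
  have g_d2 : v (.d 2) = 0 := by
    linear_combination (17 / 12) * h_u0' + (-1 / 24) * h_u1' + (1 / 24) * h_u2' + (1 / 2) * h_t3' +
      (1 / 2) * h_w3'
  have g_t0 : v (.t 0) = 0 := by
    linear_combination (-145 / 576) * h_u0' + (-47 / 1152) * h_u1' + (-353 / 1152) * h_u2' + (-1 / 27) * h_u3' +
      (-1 / 27) * h_z0' + (4 / 27) * h_z3' + (1 / 144) * h_t0' + (1 / 18) * h_t2' +
      (-1 / 144) * h_t3' + (-1 / 288) * h_w0' + (-17 / 432) * h_w1' + (1 / 54) * h_w2' +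
      (-1 / 144) * h_w3'
  have g_t1 : v (.t 1) = 0 := by
    linear_combination (-499 / 3456) * h_u0' + (59 / 6912) * h_u1' + (-923 / 6912) * h_u2' + (-7 / 144) * h_d0' +
      (5 / 144) * h_t1' + (3 / 32) * h_t3' + (-3 / 64) * h_w1' + (3 / 32) * h_w3'
  have g_t2 : v (.t 2) = 0 := by
    linear_combination (-2023 / 1728) * h_u0' + (299 / 3456) * h_u1' + (-155 / 3456) * h_u2' + (1 / 36) * h_u3' +
      (1 / 36) * h_z0' + (-1 / 9) * h_z3' + (-1 / 144) * h_d1' + (-7 / 96) * h_t2' +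
      (-17 / 96) * h_t3' + (43 / 864) * h_w1' + (-25 / 864) * h_w2' + (-17 / 96) * h_w3'
  have g_t3 : v (.t 3) = 0 := by
    linear_combination (-265 / 576) * h_u0' + (-11 / 1152) * h_u1' + (-197 / 1152) * h_u2' + (-1 / 108) * h_u3' +
      (-1 / 108) * h_z0' + (1 / 27) * h_z3' + (-1 / 48) * h_d2' + (1 / 288) * h_t2' +
      (3 / 32) * h_t3' + (71 / 864) * h_w1' + (1 / 864) * h_w2' + (-11 / 96) * h_w3'
  have g_w0 : v (.w 0) = 0 := by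
    linear_combination (-175 / 48) * h_u0' + (19 / 36) * h_u1' + (5 / 4) * h_u2' + (8 / 27) * h_u3' +
      (8 / 27) * h_z0' + (-32 / 27) * h_z3' + (-13 / 288) * h_t0' + (-4 / 9) * h_t2' +
      (-109 / 144) * h_t3' + (-5 / 576) * h_w0' + (715 / 1728) * h_w1' + (-4 / 27) * h_w2' +
      (-109 / 144) * h_w3'
  have g_w1 : v (.w 1) = 0 := by
    linear_combination (-445 / 6912) * h_u0' + (5 / 13824) * h_u1' + (-5 / 13824) * h_u2' + (5 / 288) * h_d0' +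
      (-1 / 288) * h_t1' + (-5 / 192) * h_t3' + (25 / 384) * h_w1' + (-5 / 192) * h_w3'
  have g_w2 : v (.w 2) = 0 := by
    linear_combination (3739 / 1728) * h_u0' + (-95 / 3456) * h_u1' + (-481 / 3456) * h_u2' + (-1 / 36) * h_u3' +
      (-1 / 36) * h_z0' + (1 / 9) * h_z3' + (1 / 144) * h_d1' + (-5 / 96) * h_t2' +
      (13 / 96) * h_t3' + (101 / 864) * h_w1' + (133 / 864) * h_w2' + (13 / 96) * h_w3'
  have g_w3 : v (.w 3) = 0 := by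
    linear_combination (203 / 192) * h_u0' + (-61 / 1152) * h_u1' + (-43 / 128) * h_u2' + (-7 / 108) * h_u3' +
      (-7 / 108) * h_z0' + (7 / 27) * h_z3' + (5 / 48) * h_d2' + (7 / 288) * h_t2' +
      (-17 / 96) * h_t3' + (-187 / 864) * h_w1' + (7 / 864) * h_w2' + (35 / 96) * h_w3'
  funext i
  rcases i with ⟨j, i⟩ | ⟨j, i⟩ | i | r | r
  · obtain rfl : j = 0 := Subsingleton.elim _ _
    fin_cases i
    exacts [g_u0, g_u1, g_u2, g_u3]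
  · obtain rfl : j = 0 := Subsingleton.elim _ _
    fin_cases i
    exacts [g_z0, g_z1, g_z2, g_z3]
  · fin_cases i
    exacts [g_d0, g_d1, g_d2]
  · fin_cases r
    exacts [g_t0, g_t1, g_t2, g_t3]
  · fin_cases r
    exacts [g_w0, g_w1, g_w2, g_w3]

end Pool.Agent.Helper76.N4.E2
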