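import Mathlib
import Pool.Agent.Helper76.N4.Exist
import Pool.Agent.Helper76.N4.E2Jac

/-!
# Existence of configurations for type 2
-/

namespace Pool.Agent.Helper76.N4

open Pool.Agent.Helper64.HK Pool.Agent.Helper16.N4

theorem exc2 : ExC (![0, 1] : Fin (1 + 1) → Fin (3 + 1)) := by
  refine exc_of (a := E2.a2) E2.s2 E2.c2 E2.x2 E2.ex_eqn E2.ex_pp
    (jac E2.s2 E2.c2 E2.x2 E2.ex_eqn fun v hv => E2.v_zero v fun i => ?_)
  have h := hv i
  rw [E2.c2, map_cM (a := E2.a2) (algebraMap ℚ (DualNumber ℚ)) E2.M2] at h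
  exact h

end Pool.Agent.Helper76.N4
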